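import Pool.Agent.Q227.SF.Lower

namespace Pool.Agent.Q227.SF

open scoped Matrix

/-! ### The tangent lines of small discs -/

/-- existence of the unit normal -/
theorem exists_normal (d1 d2 g : ℝ) (h : g ^ 2 < d1 ^ 2 + d2 ^ 2) :
    ∃ m1 m2 : ℝ, m1 ^ 2 + m2 ^ 2 = 1 ∧ m1 * d1 + m2 * d2 = g ∧ 0 < -(m1 * d2) + m2 * d1 := by
  set D := d1 ^ 2 + d2 ^ 2 with hD
  have hDpos : 0 < D := lt_of_le_of_lt (sq_nonneg g) h
  set s := Real.sqrt (D - g ^ 2) with hs
  have hs0 : 0 < s := Real.sqrt_pos.2 (by linarith)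
  have hs2 : s ^ 2 = D - g ^ 2 := Real.sq_sqrt (by linarith)
  refine ⟨(g * d1 - s * d2) / D, (g * d2 + s * d1) / D, ?_, ?_, ?_⟩
  · have : ((g * d1 - s * d2) / D) ^ 2 + ((g * d2 + s * d1) / D) ^ 2 =
        (g ^ 2 + s ^ 2) * (d1 ^ 2 + d2 ^ 2) / D ^ 2 := by
      field_simp; ring
    rw [this, hs2, ← hD]
    field_simp
    ring
  · have : (g * d1 - s * d2) / D * d1 + (g * d2 + s * d1) / D * d2 =
        g * (d1 ^ 2 + d2 ^ 2) / D := by
      field_simp; ring
    rw [this, ← hD]
    field_simp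
  · have : -((g * d1 - s * d2) / D * d2) + (g * d2 + s * d1) / D * d1 =
        s * (d1 ^ 2 + d2 ^ 2) / D := by
      field_simp; ring
    rw [this, ← hD]
    have : s * D / D = s := by field_simp
    rw [this]; exact hs0

/-- The index type: a pair of discs and two signs. -/
abbrev Idx (k : ℕ) : Type := {q : Fin k × Fin k // q.1 < q.2} × Bool × Bool

/-- sign -/
def sg (b : Bool) : ℝ := if b then 1 else -1

theorem sg_sq (b : Bool) : sg b * sg b = 1 := by cases b <;> simp [sg]

theorem sg_inj {u v : Bool} (h : sg u = sg v) : u = v := by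
  cases u <;> cases v
  · rfl
  · exfalso; simp only [sg] at h; norm_num at h
  · exfalso; simp only [sg] at h; norm_num at h
  · rfl

/-- The radius. -/
noncomputable def rad (k : ℕ) : ℝ := 1 / (20 * (k : ℝ))

theorem rad_pos {k : ℕ} (hk : 0 < k) : 0 < rad k := by
  unfold rad
  have : (0 : ℝ) < k := by exact_mod_cast hk
  positivity

theorem exists_m {k : ℕ} (x : Idx k) : ∃ m : ℝ × ℝ, m.1 ^ 2 + m.2 ^ 2 = 1 ∧
    m.1 * ((x.1.1.2 : ℝ) - (x.1.1.1 : ℝ)) + m.2 * ((x.1.1.2 : ℝ) ^ 2 - (x.1.1.1 : ℝ) ^ 2) =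
      (sg x.2.2 - sg x.2.1) * rad k ∧
    0 < -(m.1 * ((x.1.1.2 : ℝ) ^ 2 - (x.1.1.1 : ℝ) ^ 2)) +
      m.2 * ((x.1.1.2 : ℝ) - (x.1.1.1 : ℝ)) := by
  obtain ⟨⟨⟨i, j⟩, hij⟩, s, t⟩ := x
  simp only at hij ⊢
  have hk : 0 < k := lt_of_le_of_lt (Nat.zero_le _) i.2
  have hr := rad_pos hk
  have hr1 : rad k ≤ 1 / 20 := by
    unfold rad
    have : (1 : ℝ) ≤ k := by exact_mod_cast hk
    rw [div_le_div_iff₀ (by positivity) (by norm_num)]
    linarith
  have h1 : (1 : ℝ) ≤ (j : ℝ) - (i : ℝ) := by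
    have : (i : ℕ) + 1 ≤ (j : ℕ) := hij
    have : ((i : ℕ) : ℝ) + 1 ≤ ((j : ℕ) : ℝ) := by exact_mod_cast this
    linarith
  have hg : ((sg t - sg s) * rad k) ^ 2 ≤ (1 / 10) ^ 2 := by
    cases s <;> cases t <;> simp only [sg] <;> norm_num <;> nlinarith
  obtain ⟨m1, m2, h2, h3, h4⟩ := exists_normal ((j : ℝ) - (i : ℝ)) ((j : ℝ) ^ 2 - (i : ℝ) ^ 2)
    ((sg t - sg s) * rad k) (by nlinarith [sq_nonneg ((j : ℝ) ^ 2 - (i : ℝ) ^ 2)])
  exact ⟨(m1, m2), h2, h3, h4⟩

/-- unit normal of the tangent line -/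
noncomputable def nrm {k : ℕ} (x : Idx k) : ℝ × ℝ := (exists_m x).choose

theorem nrm_unit {k : ℕ} (x : Idx k) : (nrm x).1 ^ 2 + (nrm x).2 ^ 2 = 1 :=
  (exists_m x).choose_spec.1

theorem nrm_dot {k : ℕ} (x : Idx k) :
    (nrm x).1 * ((x.1.1.2 : ℝ) - (x.1.1.1 : ℝ)) +
      (nrm x).2 * ((x.1.1.2 : ℝ) ^ 2 - (x.1.1.1 : ℝ) ^ 2) = (sg x.2.2 - sg x.2.1) * rad k :=
  (exists_m x).choose_spec.2.1

theorem nrm_perp {k : ℕ} (x : Idx k) :
    0 < -((nrm x).1 * ((x.1.1.2 : ℝ) ^ 2 - (x.1.1.1 : ℝ) ^ 2)) +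
      (nrm x).2 * ((x.1.1.2 : ℝ) - (x.1.1.1 : ℝ)) :=
  (exists_m x).choose_spec.2.2

/-- The centre of the `i`-th disc, in homogeneous coordinates. -/
def pt {k : ℕ} (i : Fin k) : V3 := ![(i : ℝ), (i : ℝ) ^ 2, 1]

/-- The tangent line. -/
noncomputable def tg {k : ℕ} (x : Idx k) : V3 :=
  ![(nrm x).1, (nrm x).2,
    sg x.2.1 * rad k - ((nrm x).1 * (x.1.1.1 : ℝ) + (nrm x).2 * (x.1.1.1 : ℝ) ^ 2)]

/-- `m · (p_l - p_i)` -/
noncomputable def df {k : ℕ} (x : Idx k) (i l : Fin k) : ℝ :=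
  (nrm x).1 * ((l : ℝ) - (i : ℝ)) + (nrm x).2 * ((l : ℝ) ^ 2 - (i : ℝ) ^ 2)

theorem tg_dot {k : ℕ} (x : Idx k) (u v w : ℝ) :
    tg x ⬝ᵥ ![u, v, w] = (nrm x).1 * u + (nrm x).2 * v +
      (sg x.2.1 * rad k - ((nrm x).1 * (x.1.1.1 : ℝ) + (nrm x).2 * (x.1.1.1 : ℝ) ^ 2)) * w := by
  unfold tg
  simp [dotProduct, Fin.sum_univ_three]

theorem tg_pt {k : ℕ} (x : Idx k) (l : Fin k) :
    tg x ⬝ᵥ pt l = df x x.1.1.1 l + sg x.2.1 * rad k := by
  unfold pt df
  rw [tg_dot]; ring

theorem tg_sub {k : ℕ} (x : Idx k) (i l : Fin k) :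
    tg x ⬝ᵥ pt l - tg x ⬝ᵥ pt i = df x i l := by
  unfold pt df
  rw [tg_dot, tg_dot]; ring

theorem tg_fst {k : ℕ} (x : Idx k) : tg x ⬝ᵥ pt x.1.1.1 = sg x.2.1 * rad k := by
  rw [tg_pt]; unfold df; ring

theorem tg_snd {k : ℕ} (x : Idx k) : tg x ⬝ᵥ pt x.1.1.2 = sg x.2.2 * rad k := by
  rw [tg_pt]
  have := nrm_dot x
  unfold df
  rw [this]; ring

/-- Non-collinearity, quantitatively. -/
theorem noncol {k : ℕ} (m1 m2 : ℝ) (hm : m1 ^ 2 + m2 ^ 2 = 1) {i j l : Fin k} (hij : i ≠ j)
    (hil : i ≠ l) (hjl : j ≠ l)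
    (h1 : |m1 * ((j : ℝ) - (i : ℝ)) + m2 * ((j : ℝ) ^ 2 - (i : ℝ) ^ 2)| ≤ 2 * rad k)
    (h2 : |m1 * ((l : ℝ) - (i : ℝ)) + m2 * ((l : ℝ) ^ 2 - (i : ℝ) ^ 2)| ≤ 2 * rad k) : False := by
  have hk : 0 < k := lt_of_le_of_lt (Nat.zero_le _) i.2
  have hkr : (1 : ℝ) ≤ k := by exact_mod_cast hk
  have hr := rad_pos hk
  have hrk : rad k * (20 * k) = 1 := by unfold rad; field_simp
  have hdist : ∀ {u v : Fin k}, u ≠ v → (1 : ℝ) ≤ |(v : ℝ) - (u : ℝ)| := by
    intro u v huv
    have h3 : ((v : ℕ) : ℤ) - ((u : ℕ) : ℤ) ≠ 0 := by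
      intro h0
      apply huv
      apply Fin.ext
      omega
    have h4 := Int.one_le_abs h3
    exact_mod_cast h4
  have hlt : ∀ u : Fin k, (u : ℝ) ≤ k := by
    intro u
    exact_mod_cast u.2.le
  have hge : ∀ u : Fin k, (0 : ℝ) ≤ (u : ℝ) := fun u => Nat.cast_nonneg _
  have e1 : |m1 + (i + j : ℝ) * m2| ≤ 2 * rad k := by
    have : m1 * ((j : ℝ) - (i : ℝ)) + m2 * ((j : ℝ) ^ 2 - (i : ℝ) ^ 2) =
      ((j : ℝ) - (i : ℝ)) * (m1 + (i + j : ℝ) * m2) := by ring
    rw [this, abs_mul] at h1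
    nlinarith [hdist hij, abs_nonneg (m1 + (i + j : ℝ) * m2)]
  have e2 : |m1 + (i + l : ℝ) * m2| ≤ 2 * rad k := by
    have : m1 * ((l : ℝ) - (i : ℝ)) + m2 * ((l : ℝ) ^ 2 - (i : ℝ) ^ 2) =
      ((l : ℝ) - (i : ℝ)) * (m1 + (i + l : ℝ) * m2) := by ring
    rw [this, abs_mul] at h2
    nlinarith [hdist hil, abs_nonneg (m1 + (i + l : ℝ) * m2)]
  have e3 : |m2| ≤ 4 * rad k := by
    have h3 : |((l : ℝ) - (j : ℝ)) * m2| ≤ 4 * rad k := by
      have : ((l : ℝ) - (j : ℝ)) * m2 = (m1 + (i + l : ℝ) * m2) - (m1 + (i + j : ℝ) * m2) := by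
        ring
      rw [this]
      have := abs_sub (m1 + (i + l : ℝ) * m2) (m1 + (i + j : ℝ) * m2)
      linarith
    rw [abs_mul] at h3
    nlinarith [hdist hjl, abs_nonneg m2]
  have e4 : |m1| ≤ 2 * rad k + 2 * k * (4 * rad k) := by
    have : m1 = (m1 + (i + j : ℝ) * m2) - (i + j : ℝ) * m2 := by ring
    rw [this]
    have h5 := abs_sub (m1 + (i + j : ℝ) * m2) ((i + j : ℝ) * m2)
    have h6 : |(i + j : ℝ) * m2| ≤ 2 * k * (4 * rad k) := by
      rw [abs_mul]
      have h7 : |(i + j : ℝ)| ≤ 2 * k := by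
        rw [abs_of_nonneg (add_nonneg (hge i) (hge j))]
        linarith [hlt i, hlt j]
      exact mul_le_mul h7 e3 (abs_nonneg _) (by positivity)
    linarith
  have e5 : |m1| ≤ 1 / 2 := by
    have : 2 * rad k + 2 * k * (4 * rad k) ≤ 1 / 2 := by nlinarith
    linarith
  have e6 : |m2| ≤ 1 / 5 := by
    have : 4 * rad k ≤ 1 / 5 := by nlinarith
    linarith
  have e7 : m1 ^ 2 ≤ (1 / 2) ^ 2 := by
    rw [← sq_abs m1]; exact pow_le_pow_left₀ (abs_nonneg _) e5 2
  have e8 : m2 ^ 2 ≤ (1 / 5) ^ 2 := by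
    rw [← sq_abs m2]; exact pow_le_pow_left₀ (abs_nonneg _) e6 2
  norm_num at e7 e8
  linarith

open Classical in
/-- The lines tangent to the `i`-th disc. -/
noncomputable def tang {k : ℕ} (i : Fin k) : Finset (Idx k) :=
  Finset.univ.filter fun x => i = x.1.1.1 ∨ i = x.1.1.2

/-- A tangent line at `i`: its value at `p_i` is `± r`, with sign `s`, and it nearly contains
another centre. -/
theorem tang_spec {k : ℕ} {i : Fin k} {x : Idx k} (hx : x ∈ tang i) :
    ∃ s : ℝ, s * s = 1 ∧ tg x ⬝ᵥ pt i = s * rad k := by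
  unfold tang at hx
  rw [Finset.mem_filter] at hx
  rcases hx.2 with h | h
  · exact ⟨sg x.2.1, sg_sq _, by rw [h]; exact tg_fst x⟩
  · exact ⟨sg x.2.2, sg_sq _, by rw [h]; exact tg_snd x⟩

theorem abs_sub_rad {k : ℕ} {s t : ℝ} (hs : s * s = 1) (ht : t * t = 1) (hr : 0 < rad k) :
    |t * rad k - s * rad k| ≤ 2 * rad k := by
  have h1 : |s| ≤ 1 := abs_le_of_sq_le_sq (by nlinarith) (by norm_num)
  have h2 : |t| ≤ 1 := abs_le_of_sq_le_sq (by nlinarith) (by norm_num)
  rw [← sub_mul, abs_mul, abs_of_pos hr]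
  have := abs_sub t s
  nlinarith

/-- A line which is not tangent at `i` is far from `p_i`. -/
theorem far {k : ℕ} {i : Fin k} {x : Idx k} (hx : x ∉ tang i) : rad k < |tg x ⬝ᵥ pt i| := by
  have hk : 0 < k := lt_of_le_of_lt (Nat.zero_le _) i.2
  have hr := rad_pos hk
  unfold tang at hx
  simp only [Finset.mem_filter, Finset.mem_univ, true_and, not_or] at hx
  by_contra hcon
  push Not at hcon
  have hne : x.1.1.1 ≠ x.1.1.2 := x.1.2.ne
  have key : ∀ l s, s * s = 1 → tg x ⬝ᵥ pt l = s * rad k → |df x i l| ≤ 2 * rad k := by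
    intro l s hs hl
    rw [← tg_sub, hl]
    have h1 : |s| ≤ 1 := abs_le_of_sq_le_sq (by nlinarith) (by norm_num)
    have h2 := abs_sub (s * rad k) (tg x ⬝ᵥ pt i)
    have h3 : |s * rad k| ≤ rad k := by
      rw [abs_mul, abs_of_pos hr]; nlinarith
    linarith
  exact noncol (nrm x).1 (nrm x).2 (nrm_unit x) hx.1 hx.2 hne
    (key _ _ (sg_sq _) (tg_fst x)) (key _ _ (sg_sq _) (tg_snd x))

/-- If two tangent lines at `i` have proportional normals then they coincide. -/
theorem normals {k : ℕ} {i : Fin k} {x y : Idx k} (hx : x ∈ tang i) (hy : y ∈ tang i)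
    {s t : ℝ} (hs : s * s = 1) (ht : t * t = 1) (hsx : tg x ⬝ᵥ pt i = s * rad k)
    (hty : tg y ⬝ᵥ pt i = t * rad k)
    (h1 : (nrm y).1 = s * t * (nrm x).1) (h2 : (nrm y).2 = s * t * (nrm x).2) : x = y := by
  have hk : 0 < k := lt_of_le_of_lt (Nat.zero_le _) i.2
  have hr := rad_pos hk
  have hst : (s * t) * (s * t) = 1 := by nlinarith
  -- `df y = s t df x`
  have hdf : ∀ j l, df y j l = s * t * df x j l := by
    intro j l
    unfold df
    rw [h1, h2]; ring
  by_cases hq : x.1 = y.1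
  · -- same pair
    obtain ⟨q, a, b⟩ := x
    obtain ⟨q', a', b'⟩ := y
    simp only at hq
    subst hq
    have hpx := nrm_perp (q, a, b)
    have hpy := nrm_perp (q, a', b')
    simp only at hpx hpy
    have hst1 : s * t = 1 := by
      have h0 : (s * t - 1) * (s * t + 1) = 0 := by nlinarith
      rcases mul_eq_zero.1 h0 with h | h
      · linarith
      · exfalso
        have h3 : s * t = -1 := by linarith
        rw [h1, h2, h3] at hpy
        nlinarith
    have hts : t = s := by nlinarith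
    have e1 := tg_fst (q, a, b)
    have e2 := tg_snd (q, a, b)
    have e3 := tg_fst (q, a', b')
    have e4 := tg_snd (q, a', b')
    simp only at e1 e2 e3 e4
    have hd := hdf q.1.1 q.1.2
    rw [hst1, one_mul, ← tg_sub, ← tg_sub, e1, e2, e3, e4] at hd
    have hd' : sg b' - sg a' = sg b - sg a := by
      have : (sg b' - sg a') * rad k = (sg b - sg a) * rad k := by linarith
      exact mul_right_cancel₀ hr.ne' this
    unfold tang at hx
    simp only [Finset.mem_filter, Finset.mem_univ, true_and] at hx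
    rcases hx with h | h
    · rw [h, e1] at hsx
      rw [h, e3] at hty
      have c1 : sg a = s := mul_right_cancel₀ hr.ne' hsx
      have c2 : sg a' = t := mul_right_cancel₀ hr.ne' hty
      have c3 : sg a = sg a' := by rw [c1, c2, hts]
      have c4 : sg b = sg b' := by linarith
      rw [sg_inj c3, sg_inj c4]
    · rw [h, e2] at hsx
      rw [h, e4] at hty
      have c1 : sg b = s := mul_right_cancel₀ hr.ne' hsx
      have c2 : sg b' = t := mul_right_cancel₀ hr.ne' hty
      have c3 : sg b = sg b' := by rw [c1, c2, hts]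
      have c4 : sg a = sg a' := by linarith
      rw [sg_inj c3, sg_inj c4]
  · -- different pairs: three centres are nearly collinear
    exfalso
    -- the other centres
    have hox : ∃ j, j ≠ i ∧ ((i = x.1.1.1 ∧ j = x.1.1.2) ∨ (j = x.1.1.1 ∧ i = x.1.1.2)) := by
      unfold tang at hx
      simp only [Finset.mem_filter, Finset.mem_univ, true_and] at hx
      rcases hx with h | h
      · exact ⟨x.1.1.2, by rw [h]; exact x.1.2.ne', Or.inl ⟨h, rfl⟩⟩
      · exact ⟨x.1.1.1, by rw [h]; exact x.1.2.ne, Or.inr ⟨rfl, h⟩⟩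
    have hoy : ∃ j, j ≠ i ∧ ((i = y.1.1.1 ∧ j = y.1.1.2) ∨ (j = y.1.1.1 ∧ i = y.1.1.2)) := by
      unfold tang at hy
      simp only [Finset.mem_filter, Finset.mem_univ, true_and] at hy
      rcases hy with h | h
      · exact ⟨y.1.1.2, by rw [h]; exact y.1.2.ne', Or.inl ⟨h, rfl⟩⟩
      · exact ⟨y.1.1.1, by rw [h]; exact y.1.2.ne, Or.inr ⟨rfl, h⟩⟩
    obtain ⟨j, hji, hj⟩ := hox
    obtain ⟨l, hli, hl⟩ := hoy
    have hjl : j ≠ l := by
      intro hjl
      rw [hjl] at hj
      apply hq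
      apply Subtype.ext
      apply Prod.ext
      · rcases hj with ⟨a1, a2⟩ | ⟨a1, a2⟩ <;> rcases hl with ⟨b1, b2⟩ | ⟨b1, b2⟩
        · rw [← a1, ← b1]
        · exfalso
          have c1 := x.1.2
          have c2 := y.1.2
          rw [← a1, ← a2] at c1
          rw [← b1, ← b2] at c2
          exact absurd c1 (not_lt.2 c2.le)
        · exfalso
          have c1 := x.1.2
          have c2 := y.1.2
          rw [← a1, ← a2] at c1
          rw [← b1, ← b2] at c2
          exact absurd c1 (not_lt.2 c2.le)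
        · rw [← a1, ← b1]
      · rcases hj with ⟨a1, a2⟩ | ⟨a1, a2⟩ <;> rcases hl with ⟨b1, b2⟩ | ⟨b1, b2⟩
        · rw [← a2, ← b2]
        · exfalso
          have c1 := x.1.2
          have c2 := y.1.2
          rw [← a1, ← a2] at c1
          rw [← b1, ← b2] at c2
          exact absurd c1 (not_lt.2 c2.le)
        · exfalso
          have c1 := x.1.2
          have c2 := y.1.2
          rw [← a1, ← a2] at c1
          rw [← b1, ← b2] at c2
          exact absurd c1 (not_lt.2 c2.le)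
        · rw [← a2, ← b2]
    have dx : |df x i j| ≤ 2 * rad k := by
      rw [← tg_sub]
      rcases hj with ⟨a1, a2⟩ | ⟨a1, a2⟩
      · rw [a1, a2, tg_fst, tg_snd]
        exact abs_sub_rad (sg_sq _) (sg_sq _) hr
      · rw [a1, a2, tg_fst, tg_snd]
        exact abs_sub_rad (sg_sq _) (sg_sq _) hr
    have dy : |df x i l| ≤ 2 * rad k := by
      have e : df x i l = s * t * df y i l := by
        rw [hdf, ← mul_assoc, hst, one_mul]
      have habs : |s * t| = 1 := by
        have := abs_mul_abs_self (s * t)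
        rw [hst] at this
        nlinarith [abs_nonneg (s * t)]
      rw [e, abs_mul, habs, one_mul, ← tg_sub]
      rcases hl with ⟨a1, a2⟩ | ⟨a1, a2⟩
      · rw [a1, a2, tg_fst, tg_snd]
        exact abs_sub_rad (sg_sq _) (sg_sq _) hr
      · rw [a1, a2, tg_fst, tg_snd]
        exact abs_sub_rad (sg_sq _) (sg_sq _) hr
    exact noncol (nrm x).1 (nrm x).2 (nrm_unit x) hji.symm hli.symm hjl dx dy

theorem good_tang (k : ℕ) : Good (tg (k := k)) pt tang := by
  refine ⟨?_, ?_, ?_⟩
  · intro i x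
    have hk : 0 < k := lt_of_le_of_lt (Nat.zero_le _) i.2
    have hr := rad_pos hk
    by_cases hx : x ∈ tang i
    · obtain ⟨s, hs, h⟩ := tang_spec hx
      rw [h]
      refine mul_ne_zero ?_ hr.ne'
      rintro rfl
      norm_num at hs
    · have := far hx
      intro h0
      rw [h0, abs_zero] at this
      linarith
  · intro i x hx
    have hk : 0 < k := lt_of_le_of_lt (Nat.zero_le _) i.2
    have hr := rad_pos hk
    obtain ⟨s, hs, h⟩ := tang_spec hx
    refine ⟨![(i : ℝ) - s * rad k * (nrm x).1, (i : ℝ) ^ 2 - s * rad k * (nrm x).2, 1], ?_, ?_⟩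
    · have e : tg x ⬝ᵥ ![(i : ℝ) - s * rad k * (nrm x).1, (i : ℝ) ^ 2 - s * rad k * (nrm x).2, 1] =
        tg x ⬝ᵥ pt i - s * rad k * ((nrm x).1 ^ 2 + (nrm x).2 ^ 2) := by
        unfold pt
        rw [tg_dot, tg_dot]; ring
      rw [e, nrm_unit, h]; ring
    · intro y hyx
      set c := (nrm x).1 * (nrm y).1 + (nrm x).2 * (nrm y).2 with hc
      have e : tg y ⬝ᵥ ![(i : ℝ) - s * rad k * (nrm x).1, (i : ℝ) ^ 2 - s * rad k * (nrm x).2, 1] =
        tg y ⬝ᵥ pt i - s * rad k * c := by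
        unfold pt
        rw [tg_dot, tg_dot, hc]; ring
      rw [e]
      have hc1 : c ^ 2 ≤ 1 := by
        have h1 := nrm_unit x
        have h2 := nrm_unit y
        nlinarith [sq_nonneg ((nrm x).1 * (nrm y).2 - (nrm x).2 * (nrm y).1)]
      have habs : |s * c| ≤ 1 := by
        refine abs_le_of_sq_le_sq ?_ (by norm_num)
        nlinarith
      by_cases hy : y ∈ tang i
      · obtain ⟨t, ht, h'⟩ := tang_spec hy
        rw [h']
        have hne : s * t * c ≠ 1 := by
          intro h1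
          apply hyx
          symm
          have hst : (s * t) * (s * t) = 1 := by nlinarith
          have hcs : c = s * t := by
            have : s * t * (s * t * c) = s * t * 1 := by rw [h1]
            rw [← mul_assoc, hst] at this
            linarith
          have h2 := nrm_unit x
          have h3 := nrm_unit y
          have h4 : ((nrm y).1 - s * t * (nrm x).1) ^ 2 + ((nrm y).2 - s * t * (nrm x).2) ^ 2 = 0 := by
            have : ((nrm y).1 - s * t * (nrm x).1) ^ 2 + ((nrm y).2 - s * t * (nrm x).2) ^ 2 =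
              ((nrm y).1 ^ 2 + (nrm y).2 ^ 2) + (s * t) * (s * t) * ((nrm x).1 ^ 2 + (nrm x).2 ^ 2)
              - 2 * (s * t) * ((nrm x).1 * (nrm y).1 + (nrm x).2 * (nrm y).2) := by ring
            rw [this, h2, h3, ← hc, hcs, hst]
            have : 2 * (s * t) * (s * t) = 2 * ((s * t) * (s * t)) := by ring
            rw [this, hst]; ring
          have h5 : (nrm y).1 - s * t * (nrm x).1 = 0 := by nlinarith [sq_nonneg ((nrm y).1 - s * t * (nrm x).1), sq_nonneg ((nrm y).2 - s * t * (nrm x).2)]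
          have h6 : (nrm y).2 - s * t * (nrm x).2 = 0 := by nlinarith [sq_nonneg ((nrm y).1 - s * t * (nrm x).1), sq_nonneg ((nrm y).2 - s * t * (nrm x).2)]
          exact normals hx hy hs ht h h' (by linarith) (by linarith)
        have hle : s * t * c ≤ 1 := by
          have : (s * t * c) ^ 2 ≤ 1 ^ 2 := by
            have e3 : (s * t * c) ^ 2 = (s * s) * (t * t) * c ^ 2 := by ring
            rw [e3, hs, ht]
            linarith
          exact (abs_le_of_sq_le_sq' this (by norm_num)).2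
        have hlt : s * t * c < 1 := lt_of_le_of_ne hle hne
        have : t * rad k * (t * rad k - s * rad k * c) = (rad k) ^ 2 * (1 - s * t * c) := by
          have : t * rad k * (t * rad k - s * rad k * c) = (rad k) ^ 2 * (t * t - s * t * c) := by
            ring
          rw [this, ht]
        rw [this]
        have := pow_pos hr 2
        nlinarith
      · have hfar := far hy
        set X := tg y ⬝ᵥ pt i with hX
        have h1 : |X * (s * rad k * c)| ≤ |X| * rad k := by
          rw [abs_mul]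
          have : |s * rad k * c| ≤ rad k := by
            have e2 : s * rad k * c = rad k * (s * c) := by ring
            rw [e2, abs_mul, abs_of_pos hr]
            nlinarith
          exact mul_le_mul_of_nonneg_left this (abs_nonneg _)
        have h2 : X * (X - s * rad k * c) = |X| * |X| - X * (s * rad k * c) := by
          rw [abs_mul_abs_self]; ring
        rw [h2]
        have h3 := le_abs_self (X * (s * rad k * c))
        have h4 : 0 < |X| := lt_trans hr hfar
        nlinarith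
  · intro i j hij
    have hk : 0 < k := lt_of_le_of_lt (Nat.zero_le _) i.2
    have hr := rad_pos hk
    have hr2 := mul_pos hr hr
    rcases lt_or_gt_of_ne hij with h | h
    · refine ⟨⟨(⟨(i, j), h⟩, true, false), ?_⟩, ⟨(⟨(i, j), h⟩, true, true), ?_⟩⟩
      · have e1 := tg_fst ((⟨(i, j), h⟩, true, false) : Idx k)
        have e2 := tg_snd ((⟨(i, j), h⟩, true, false) : Idx k)
        simp only at e1 e2
        rw [e1, e2]
        simp only [sg]
        norm_num
        exact hr.ne'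
      · have e1 := tg_fst ((⟨(i, j), h⟩, true, true) : Idx k)
        have e2 := tg_snd ((⟨(i, j), h⟩, true, true) : Idx k)
        simp only at e1 e2
        rw [e1, e2]
        simp only [sg]
        norm_num
        exact hr.ne'
    · refine ⟨⟨(⟨(j, i), h⟩, true, false), ?_⟩, ⟨(⟨(j, i), h⟩, true, true), ?_⟩⟩
      · have e1 := tg_fst ((⟨(j, i), h⟩, true, false) : Idx k)
        have e2 := tg_snd ((⟨(j, i), h⟩, true, false) : Idx k)
        simp only at e1 e2
        rw [e1, e2]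
        simp only [sg]
        norm_num
        exact hr.ne'
      · have e1 := tg_fst ((⟨(j, i), h⟩, true, true) : Idx k)
        have e2 := tg_snd ((⟨(j, i), h⟩, true, true) : Idx k)
        simp only at e1 e2
        rw [e1, e2]
        simp only [sg]
        norm_num
        exact hr.ne'

/-! ### Counting -/

theorem card_pairs (k : ℕ) : Fintype.card {q : Fin k × Fin k // q.1 < q.2} = k.choose 2 := by
  classical
  rw [Fintype.card_subtype]
  have h1 : (Finset.univ.filter fun q : Fin k × Fin k => q.1 < q.2).card =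
      (Finset.univ.filter fun q : Fin k × Fin k => q.2 < q.1).card := by
    refine Finset.card_bij (fun q _ => (q.2, q.1)) ?_ ?_ ?_
    · intro q hq; simpa using hq
    · intro q _ q' _ h
      simp only [Prod.mk.injEq] at h
      exact Prod.ext h.2 h.1
    · intro q hq
      exact ⟨(q.2, q.1), by simpa using hq, rfl⟩
  have h2 : (Finset.univ.filter fun q : Fin k × Fin k => q.1 < q.2).card +
      (Finset.univ.filter fun q : Fin k × Fin k => q.2 < q.1).card = k * k - k := by
    rw [← Finset.card_union_of_disjoint]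
    · have : (Finset.univ.filter fun q : Fin k × Fin k => q.1 < q.2) ∪
          (Finset.univ.filter fun q : Fin k × Fin k => q.2 < q.1) =
          (Finset.univ : Finset (Fin k)).offDiag := by
        ext q
        simp [Finset.mem_offDiag, lt_or_lt_iff_ne]
      rw [this, Finset.offDiag_card]
      simp
    · rw [Finset.disjoint_filter]
      intro q _ h
      exact not_lt.2 h.le
  rw [Nat.choose_two_right]
  have h3 : k * (k - 1) = k * k - k := by rw [Nat.mul_sub, mul_one]
  rw [h3]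
  omega

theorem card_idx (k : ℕ) : Fintype.card (Idx k) = 4 * k.choose 2 := by
  rw [Fintype.card_prod, card_pairs]
  simp [mul_comm]

theorem sum_tang (k : ℕ) : ∑ i : Fin k, (tang i).card = 2 * Fintype.card (Idx k) := by
  classical
  unfold tang
  simp only [Finset.card_filter]
  rw [Finset.sum_comm]
  have : ∀ x : Idx k, (∑ i : Fin k, if i = x.1.1.1 ∨ i = x.1.1.2 then 1 else 0) = 2 := by
    intro x
    rw [← Finset.card_filter]
    have : (Finset.univ.filter fun i : Fin k => i = x.1.1.1 ∨ i = x.1.1.2) =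
        {x.1.1.1, x.1.1.2} := by
      ext i; simp
    rw [this]
    exact Finset.card_pair x.1.2.ne
  rw [Finset.sum_congr rfl fun x _ => this x]
  simp [mul_comm]

theorem lower_two {k : ℕ} (hk : 2 ≤ k) : ((4 * k.choose 2 : ℕ) : ℤ) ∈ sideSums k := by
  have h1 : 1 ≤ k.choose 2 := Nat.choose_pos hk
  refine build' (a := tg (k := k)) (P := pt) (T := tang) ?_ (good_tang k) ?_
  · rw [card_idx]; omega
  · rw [sum_tang, card_idx]; omega

theorem lower_one : ((4 * (1 : ℕ).choose 2 : ℕ) : ℤ) ∈ sideSums 1 := by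
  classical
  refine build' (ι := Fin 3) (a := fun i => Pi.single i 1) (P := fun _ => ![1, 1, 1])
    (T := fun _ => Finset.univ) (by simp) ⟨?_, ?_, ?_⟩ ?_
  · intro _ l
    fin_cases l <;> simp
  · intro _ l _
    refine ⟨fun j => if j = l then 0 else 1, ?_, ?_⟩
    · simp
    · intro m hm
      have e1 : (Pi.single m 1 : V3) ⬝ᵥ ![1, 1, 1] = 1 := by
        fin_cases m <;> simp
      have e2 : (Pi.single m 1 : V3) ⬝ᵥ (fun j => if j = l then (0 : ℝ) else 1) = 1 := by
        rw [single_one_dotProduct]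
        exact if_neg hm
      rw [e1, e2]
      norm_num
  · intro i j hij
    exact absurd (Subsingleton.elim i j) hij
  · simp [Nat.choose]

end Pool.Agent.Q227.SF
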