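import Mathlib

/-!
# Faces of simple line arrangements in the real projective plane: definitions
-/

namespace Pool.Agent.Q227.SF

open scoped Matrix

/-- `ℝ³`, the space of homogeneous coordinates. -/
abbrev V3 : Type := Fin 3 → ℝ

/-- The real projective plane: one-dimensional subspaces of `ℝ³`. -/
abbrev P2 : Type := Projectivization ℝ V3

/-- The topology of the real projective plane: the quotient topology of `ℝ³ ∖ {0}`. -/
noncomputable instance instTopP2 : TopologicalSpace P2 :=
  TopologicalSpace.coinduced (Projectivization.mk' ℝ : {v : V3 // v ≠ 0} → P2) inferInstance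

/-- The locus `a · x = 0` in the projective plane. -/
def lineOf (a : V3) : Set P2 := {p | a ⬝ᵥ p.rep = 0}

/-- Lines of the projective plane: the loci `a · x = 0` with `a ≠ 0`. -/
def IsLine (l : Set P2) : Prop := ∃ a : V3, a ≠ 0 ∧ l = lineOf a

/-- A simple arrangement: a finite set of (distinct) lines, at least three of them, no three of
which have a common point. -/
structure IsSimpleArrangement (A : Finset (Set P2)) : Prop where
  isLine : ∀ l ∈ A, IsLine l
  three_le : 3 ≤ A.card
  simple : ∀ l₁ ∈ A, ∀ l₂ ∈ A, ∀ l₃ ∈ A, l₁ ≠ l₂ → l₁ ≠ l₃ → l₂ ≠ l₃ → l₁ ∩ l₂ ∩ l₃ = ∅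

/-- A face of `A`: a connected component of the complement of the union of the lines. -/
def IsFace (A : Finset (Set P2)) (F : Set P2) : Prop :=
  ∃ p ∈ (⋃ l ∈ A, l)ᶜ, F = connectedComponentIn (⋃ l ∈ A, l)ᶜ p

/-- An edge of `A` on the line `l`: a connected component of `l` minus the other lines. -/
def IsEdge (A : Finset (Set P2)) (l E : Set P2) : Prop :=
  ∃ p ∈ l \ ⋃ m ∈ {m | m ∈ A ∧ m ≠ l}, m,
    E = connectedComponentIn (l \ ⋃ m ∈ {m | m ∈ A ∧ m ≠ l}, m) p

open Classical in
/-- The lines of `A` that contain an edge of the boundary of `F`. The face `F` is a `q`-gon if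
there are exactly `q` of them. -/
noncomputable def sides (A : Finset (Set P2)) (F : Set P2) : Finset (Set P2) :=
  A.filter fun l => ∃ E, IsEdge A l E ∧ E ⊆ frontier F

/-- The set of all numbers `q₁ + ... + q_k - n`, for a simple arrangement of `n` lines and `k`
pairwise distinct faces of it which are a `q₁`-gon, ..., a `q_k`-gon. -/
def sideSums (k : ℕ) : Set ℤ :=
  {m | ∃ A : Finset (Set P2), IsSimpleArrangement A ∧
    ∃ F : Fin k → Set P2, Function.Injective F ∧ (∀ i, IsFace A (F i)) ∧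
      m = ∑ i, ((sides A (F i)).card : ℤ) - (A.card : ℤ)}

/-! ### Basic topology -/

theorem mk_mem_lineOf (a v : V3) (hv : v ≠ 0) :
    Projectivization.mk ℝ v hv ∈ lineOf a ↔ a ⬝ᵥ v = 0 := by
  obtain ⟨c, hc⟩ := Projectivization.exists_smul_eq_mk_rep ℝ v hv
  unfold lineOf
  rw [Set.mem_ofPred_eq, ← hc]
  have : (c • v : V3) = (c : ℝ) • v := rfl
  rw [this, dotProduct_smul, smul_eq_mul]
  constructor
  · intro h
    rcases mul_eq_zero.1 h with h | h
    · exact absurd h c.ne_zero
    · exact h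
  · intro h
    rw [h, mul_zero]

/-- The open cone of the vectors on the same side as `x` of all `b ∈ B`. -/
def cone (B : Set V3) (x : V3) : Set V3 := {y | ∀ b ∈ B, 0 < (b ⬝ᵥ x) * (b ⬝ᵥ y)}

/-- Its image in the projective plane. -/
def pcone (B : Set V3) (x : V3) : Set P2 := {p | p.rep ∈ cone B x ∨ -p.rep ∈ cone B x}

theorem smul_mem_cone {B : Set V3} {x y : V3} {c : ℝ} (hc : 0 < c) :
    c • y ∈ cone B x ↔ y ∈ cone B x := by
  unfold cone
  simp only [Set.mem_ofPred_eq, dotProduct_smul, smul_eq_mul]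
  constructor
  · intro h b hb
    have := h b hb
    have h2 : (b ⬝ᵥ x) * (c * (b ⬝ᵥ y)) = c * ((b ⬝ᵥ x) * (b ⬝ᵥ y)) := by ring
    rw [h2] at this
    exact (mul_pos_iff_of_pos_left hc).1 this
  · intro h b hb
    have := h b hb
    have h2 : (b ⬝ᵥ x) * (c * (b ⬝ᵥ y)) = c * ((b ⬝ᵥ x) * (b ⬝ᵥ y)) := by ring
    rw [h2]
    exact mul_pos hc this

theorem mk_mem_pcone {B : Set V3} {x v : V3} (hv : v ≠ 0) :
    Projectivization.mk ℝ v hv ∈ pcone B x ↔ v ∈ cone B x ∨ -v ∈ cone B x := by
  obtain ⟨c, hc⟩ := Projectivization.exists_smul_eq_mk_rep ℝ v hv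
  unfold pcone
  rw [Set.mem_ofPred_eq, ← hc]
  have : (c • v : V3) = (c : ℝ) • v := rfl
  rw [this]
  rcases lt_or_gt_of_ne c.ne_zero with h | h
  · have e1 : (c : ℝ) • v = (-(c : ℝ)) • (-v) := by simp
    have e2 : -((c : ℝ) • v) = (-(c : ℝ)) • v := by simp
    rw [e2, e1, smul_mem_cone (by linarith), smul_mem_cone (by linarith)]
    tauto
  · have e2 : -((c : ℝ) • v) = (c : ℝ) • (-v) := by simp
    rw [e2, smul_mem_cone h, smul_mem_cone h]

end Pool.Agent.Q227.SF
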