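import Pool.Agent.Q227.SF.Topo

namespace Pool.Agent.Q227.SF

open scoped Matrix

/-- A covector of the line `l`. -/
noncomputable def cov (l : Set P2) : V3 := by
  classical
  exact if h : IsLine l then h.choose else 0

theorem cov_ne_zero {l : Set P2} (h : IsLine l) : cov l ≠ 0 := by
  unfold cov
  rw [dif_pos h]
  exact h.choose_spec.1

theorem lineOf_cov {l : Set P2} (h : IsLine l) : lineOf (cov l) = l := by
  unfold cov
  rw [dif_pos h]
  exact h.choose_spec.2.symm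

/-- The covectors of the arrangement. -/
def covs (A : Set (Set P2)) : Set V3 := cov '' A

theorem mk_mem_iff {l : Set P2} (h : IsLine l) {v : V3} (hv : v ≠ 0) :
    Projectivization.mk ℝ v hv ∈ l ↔ cov l ⬝ᵥ v = 0 := by
  conv_lhs => rw [← lineOf_cov h]
  exact mk_mem_lineOf _ _ _

theorem rep_mem_iff {l : Set P2} (h : IsLine l) {p : P2} :
    p ∈ l ↔ cov l ⬝ᵥ p.rep = 0 := by
  conv_lhs => rw [← lineOf_cov h]
  rfl

variable {A : Finset (Set P2)}

theorem mem_compl_iff (hA : ∀ l ∈ A, IsLine l) {p : P2} :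
    p ∈ (⋃ l ∈ A, l)ᶜ ↔ ∀ l ∈ A, cov l ⬝ᵥ p.rep ≠ 0 := by
  simp only [Set.mem_compl_iff, Set.mem_iUnion, not_exists]
  constructor
  · intro h l hl h0
    exact h l hl ((rep_mem_iff (hA l hl)).2 h0)
  · intro h l hl h0
    exact h l hl ((rep_mem_iff (hA l hl)).1 h0)

theorem mk_mem_compl_iff (hA : ∀ l ∈ A, IsLine l) {v : V3} (hv : v ≠ 0) :
    Projectivization.mk ℝ v hv ∈ (⋃ l ∈ A, l)ᶜ ↔ ∀ l ∈ A, cov l ⬝ᵥ v ≠ 0 := by
  simp only [Set.mem_compl_iff, Set.mem_iUnion, not_exists]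
  constructor
  · intro h l hl h0
    exact h l hl ((mk_mem_iff (hA l hl) hv).2 h0)
  · intro h l hl h0
    exact h l hl ((mk_mem_iff (hA l hl) hv).1 h0)

theorem finite_covs (A : Finset (Set P2)) : (covs (A : Set (Set P2))).Finite :=
  A.finite_toSet.image _

theorem pcone_subset_compl (hA : ∀ l ∈ A, IsLine l) (x : V3) :
    pcone (covs A) x ⊆ (⋃ l ∈ A, l)ᶜ := by
  intro p hp
  rw [mem_compl_iff hA]
  intro l hl h0
  rcases hp with hp | hp
  · have := hp (cov l) ⟨l, hl, rfl⟩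
    rw [h0] at this; simp at this
  · have := hp (cov l) ⟨l, hl, rfl⟩
    rw [dotProduct_neg, h0] at this; simp at this

/-- The faces are the projective cones. -/
theorem component_eq (hA : ∀ l ∈ A, IsLine l) (hne : A.Nonempty) {x : V3} (hx : x ≠ 0)
    (hAx : ∀ l ∈ A, cov l ⬝ᵥ x ≠ 0) :
    connectedComponentIn (⋃ l ∈ A, l)ᶜ (Projectivization.mk ℝ x hx) = pcone (covs A) x := by
  apply Set.Subset.antisymm
  · refine subset_pcone (finite_covs A) hx ?_ isPreconnected_connectedComponentIn ?_ ?_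
    · rintro b ⟨l, hl, rfl⟩
      exact hAx l hl
    · rintro p hp b ⟨l, hl, rfl⟩
      exact (mem_compl_iff hA).1 (connectedComponentIn_subset _ _ hp) l hl
    · exact mem_connectedComponentIn ((mk_mem_compl_iff hA hx).2 hAx)
  · refine IsPreconnected.subset_connectedComponentIn ?_ ?_ (pcone_subset_compl hA x)
    · obtain ⟨l, hl⟩ := hne
      exact isPreconnected_pcone (B := covs A) ⟨cov l, l, hl, rfl⟩ x
    · rw [mk_mem_pcone hx]
      left
      rintro b ⟨l, hl, rfl⟩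
      exact mul_self_pos.2 (hAx l hl)

theorem isFace_iff (hA : ∀ l ∈ A, IsLine l) (hne : A.Nonempty) {F : Set P2} :
    IsFace A F ↔ ∃ x : V3, (∀ l ∈ A, cov l ⬝ᵥ x ≠ 0) ∧ F = pcone (covs A) x := by
  constructor
  · rintro ⟨p, hp, rfl⟩
    refine ⟨p.rep, (mem_compl_iff hA).1 hp, ?_⟩
    rw [← component_eq hA hne p.rep_nonzero ((mem_compl_iff hA).1 hp), p.mk_rep]
  · rintro ⟨x, hx, rfl⟩
    have hx0 : x ≠ 0 := by
      rintro rfl
      obtain ⟨l, hl⟩ := hne
      exact hx l hl (by simp)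
    exact ⟨Projectivization.mk ℝ x hx0, (mk_mem_compl_iff hA hx0).2 hx,
      (component_eq hA hne hx0 hx).symm⟩

/-- `l` bounds the face of `x`: witness form. -/
def Bounds (A : Finset (Set P2)) (x : V3) (l : Set P2) : Prop :=
  ∃ y : V3, cov l ⬝ᵥ y = 0 ∧ ∀ m ∈ A, m ≠ l → 0 < (cov m ⬝ᵥ x) * (cov m ⬝ᵥ y)

theorem mem_rel_iff (hA : ∀ l ∈ A, IsLine l) {l : Set P2} (hl : l ∈ A) {p : P2} :
    p ∈ l \ ⋃ m ∈ {m | m ∈ A ∧ m ≠ l}, m ↔
      cov l ⬝ᵥ p.rep = 0 ∧ ∀ m ∈ A, m ≠ l → cov m ⬝ᵥ p.rep ≠ 0 := by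
  simp only [Set.mem_sdiff, Set.mem_iUnion, Set.mem_ofPred_eq, not_exists]
  rw [rep_mem_iff (hA l hl)]
  refine and_congr_right fun _ => ?_
  constructor
  · intro h m hm hml h0
    exact h m ⟨hm, hml⟩ ((rep_mem_iff (hA m hm)).2 h0)
  · intro h m hm h0
    exact h m hm.1 hm.2 ((rep_mem_iff (hA m hm.1)).1 h0)

theorem mk_mem_rel_iff (hA : ∀ l ∈ A, IsLine l) {l : Set P2} (hl : l ∈ A) {v : V3} (hv : v ≠ 0) :
    Projectivization.mk ℝ v hv ∈ l \ ⋃ m ∈ {m | m ∈ A ∧ m ≠ l}, m ↔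
      cov l ⬝ᵥ v = 0 ∧ ∀ m ∈ A, m ≠ l → cov m ⬝ᵥ v ≠ 0 := by
  simp only [Set.mem_sdiff, Set.mem_iUnion, Set.mem_ofPred_eq, not_exists]
  rw [mk_mem_iff (hA l hl) hv]
  refine and_congr_right fun _ => ?_
  constructor
  · intro h m hm hml h0
    exact h m ⟨hm, hml⟩ ((mk_mem_iff (hA m hm) hv).2 h0)
  · intro h m hm h0
    exact h m hm.1 hm.2 ((mk_mem_iff (hA m hm.1) hv).1 h0)

theorem mk_mem_closure {B : Set V3} {x z : V3} (hz : z ≠ 0) (hcl : z ∈ closure (cone B x))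
    (hB : B.Nonempty) :
    Projectivization.mk ℝ z hz ∈ closure (pcone B x) := by
  rw [pcone_eq_image hB]
  refine image_closure_subset_closure_image continuous_mk' ?_
  refine ⟨⟨z, hz⟩, ?_, rfl⟩
  rw [closure_subtype]
  have : (Subtype.val : {v : V3 // v ≠ 0} → V3) '' (Subtype.val ⁻¹' (cone B x)) = cone B x := by
    ext v
    constructor
    · rintro ⟨w, hw, rfl⟩
      exact hw
    · intro h
      exact ⟨⟨v, ne_zero_of_mem_cone hB h⟩, h, rfl⟩
  rw [this]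
  exact hcl

theorem mem_closure_cone {B : Set V3} {x z : V3}
    (h : ∀ t : ℝ, 0 < t → z + t • x ∈ cone B x) : z ∈ closure (cone B x) := by
  have hc : Filter.Tendsto (fun t : ℝ => z + t • x) (nhdsWithin 0 (Set.Ioi 0))
      (nhds (z + (0 : ℝ) • x)) := by
    have : Continuous fun t : ℝ => z + t • x := by fun_prop
    exact (this.tendsto 0).mono_left nhdsWithin_le_nhds
  rw [zero_smul, add_zero] at hc
  refine mem_closure_of_tendsto hc ?_
  filter_upwards [self_mem_nhdsWithin] with t ht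
  exact h t ht

theorem mem_sides_iff (hA : IsSimpleArrangement A) {x : V3}
    (hAx : ∀ l ∈ A, cov l ⬝ᵥ x ≠ 0) (l : Set P2) :
    l ∈ sides A (pcone (covs A) x) ↔ l ∈ A ∧ Bounds A x l := by
  classical
  have hAl := hA.isLine
  unfold sides
  rw [Finset.mem_filter]
  refine and_congr_right fun hl => ?_
  -- another line
  obtain ⟨m₀, hm₀, hm₀l⟩ : ∃ m ∈ A, m ≠ l :=
    Finset.exists_mem_ne (by have := hA.three_le; omega) l
  set B' : Set V3 := covs {m | m ∈ A ∧ m ≠ l} with hB'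
  have hB'fin : B'.Finite := (A.finite_toSet.subset (fun m hm => hm.1)).image _
  constructor
  · rintro ⟨E, ⟨p, hp, rfl⟩, hE⟩
    have hpE := mem_connectedComponentIn hp
    have hpF : p ∈ closure (pcone (covs A) x) := frontier_subset_closure (hE hpE)
    rw [mem_rel_iff hAl hl] at hp
    obtain ⟨hp0, hp1⟩ := hp
    -- the open neighbourhood
    have hO : IsOpen (pcone B' p.rep) := isOpen_pcone hB'fin _
    have hpO : p ∈ pcone B' p.rep := by
      left
      rintro b ⟨m, hm, rfl⟩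
      exact mul_self_pos.2 (hp1 m hm.1 hm.2)
    obtain ⟨r, hrO, hrF⟩ := mem_closure_iff.1 hpF _ hO hpO
    -- get w with w in cone
    obtain ⟨w, hw, hw'⟩ : ∃ w : V3, w ∈ cone (covs A) x ∧
        (w ∈ cone B' p.rep ∨ -w ∈ cone B' p.rep) := by
      rcases hrF with h | h
      · exact ⟨r.rep, h, hrO⟩
      · refine ⟨-r.rep, h, ?_⟩
        rw [neg_neg]
        exact hrO.symm
    rcases hw' with h | h
    · refine ⟨p.rep, hp0, ?_⟩
      intro m hm hml
      have h1 := hw (cov m) ⟨m, hm, rfl⟩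
      have h2 := h (cov m) ⟨m, ⟨hm, hml⟩, rfl⟩
      have h3 := mul_pos h1 h2
      have h4 : (cov m ⬝ᵥ x * cov m ⬝ᵥ w) * (cov m ⬝ᵥ p.rep * cov m ⬝ᵥ w) =
        (cov m ⬝ᵥ x * cov m ⬝ᵥ p.rep) * (cov m ⬝ᵥ w * cov m ⬝ᵥ w) := by ring
      rw [h4] at h3
      exact (mul_pos_iff_of_pos_right (mul_self_pos.2 (right_ne_zero_of_mul h1.ne'))).1 h3
    · refine ⟨-p.rep, by rw [dotProduct_neg, hp0, neg_zero], ?_⟩
      intro m hm hml
      have h1 := hw (cov m) ⟨m, hm, rfl⟩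
      have h2 := h (cov m) ⟨m, ⟨hm, hml⟩, rfl⟩
      have h3 := mul_pos h1 h2
      rw [dotProduct_neg] at h3 ⊢
      have h4 : (cov m ⬝ᵥ x * cov m ⬝ᵥ w) * (cov m ⬝ᵥ p.rep * -(cov m ⬝ᵥ w)) =
        (cov m ⬝ᵥ x * -(cov m ⬝ᵥ p.rep)) * (cov m ⬝ᵥ w * cov m ⬝ᵥ w) := by ring
      rw [h4] at h3
      exact (mul_pos_iff_of_pos_right (mul_self_pos.2 (right_ne_zero_of_mul h1.ne'))).1 h3
  · rintro ⟨y, hy0, hy⟩
    have hyne : y ≠ 0 := by
      rintro rfl
      have := hy m₀ hm₀ hm₀l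
      simp at this
    have hyrel : Projectivization.mk ℝ y hyne ∈ l \ ⋃ m ∈ {m | m ∈ A ∧ m ≠ l}, m := by
      rw [mk_mem_rel_iff hAl hl]
      exact ⟨hy0, fun m hm hml => right_ne_zero_of_mul (hy m hm hml).ne'⟩
    refine ⟨_, ⟨_, hyrel, rfl⟩, ?_⟩
    intro q hq
    have hqrel := connectedComponentIn_subset _ _ hq
    have hqrel' := (mem_rel_iff hAl hl).1 hqrel
    have hqB : q ∈ pcone B' y := by
      refine subset_pcone hB'fin hyne ?_ isPreconnected_connectedComponentIn ?_ ?_ hq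
      · rintro b ⟨m, hm, rfl⟩
        exact right_ne_zero_of_mul (hy m hm.1 hm.2).ne'
      · rintro p hp b ⟨m, hm, rfl⟩
        exact ((mem_rel_iff hAl hl).1 (connectedComponentIn_subset _ _ hp)).2 m hm.1 hm.2
      · exact mem_connectedComponentIn hyrel
    refine ⟨?_, ?_⟩
    · -- closure
      obtain ⟨z, hz, hzB, hz0, hzq⟩ : ∃ z : V3, ∃ hz : z ≠ 0, z ∈ cone B' y ∧
          cov l ⬝ᵥ z = 0 ∧ Projectivization.mk ℝ z hz = q := by
        rcases hqB with h | h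
        · exact ⟨q.rep, q.rep_nonzero, h, hqrel'.1, q.mk_rep⟩
        · refine ⟨-q.rep, neg_ne_zero.2 q.rep_nonzero, h, by
            rw [dotProduct_neg, hqrel'.1, neg_zero], ?_⟩
          conv_rhs => rw [← q.mk_rep]
          rw [Projectivization.mk_eq_mk_iff']
          exact ⟨-1, by simp⟩
      rw [← hzq]
      refine mk_mem_closure hz (mem_closure_cone ?_) ⟨cov l, l, hl, rfl⟩
      rintro t ht b ⟨m, hm, rfl⟩
      rw [dotProduct_add, dotProduct_smul, smul_eq_mul]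
      have hsq : 0 < t * (cov m ⬝ᵥ x * cov m ⬝ᵥ x) := mul_pos ht (mul_self_pos.2 (hAx m hm))
      by_cases hml : m = l
      · rw [hml] at hsq ⊢
        rw [hz0, zero_add]
        linarith
      · have h1 := hy m hm hml
        have h2 := hzB (cov m) ⟨m, ⟨hm, hml⟩, rfl⟩
        have h3 := mul_pos h1 h2
        have h4 : (cov m ⬝ᵥ x * cov m ⬝ᵥ y) * (cov m ⬝ᵥ y * cov m ⬝ᵥ z) =
          (cov m ⬝ᵥ x * cov m ⬝ᵥ z) * (cov m ⬝ᵥ y * cov m ⬝ᵥ y) := by ring
        rw [h4] at h3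
        have h5 := (mul_pos_iff_of_pos_right
          (mul_self_pos.2 (right_ne_zero_of_mul h1.ne'))).1 h3
        linarith
    · -- not interior
      intro hint
      have hqF := interior_subset hint
      have := (mem_compl_iff hAl).1 (pcone_subset_compl hAl x hqF) l hl
      exact this hqrel'.1

end Pool.Agent.Q227.SF
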