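import Pool.Agent.Q227.SF.Upper

namespace Pool.Agent.Q227.SF

open scoped Matrix

/-- Combinatorial data: covectors `a`, points `P` in distinct faces, and for each point a set of
lines bounding its face. -/
structure Good {ι : Type} {k : ℕ} (a : ι → V3) (P : Fin k → V3) (T : Fin k → Finset ι) :
    Prop where
  h1 : ∀ i l, a l ⬝ᵥ P i ≠ 0
  h2 : ∀ i, ∀ l ∈ T i, ∃ z : V3, a l ⬝ᵥ z = 0 ∧ ∀ m, m ≠ l → 0 < (a m ⬝ᵥ P i) * (a m ⬝ᵥ z)
  h3 : ∀ i j, i ≠ j → (∃ l, (a l ⬝ᵥ P i) * (a l ⬝ᵥ P j) < 0) ∧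
    (∃ l, 0 < (a l ⬝ᵥ P i) * (a l ⬝ᵥ P j))

/-- any three covectors independent -/
def Triple {ι : Type} (a : ι → V3) : Prop :=
  ∀ i j l : ι, i ≠ j → i ≠ l → j ≠ l → ∀ v : V3, a i ⬝ᵥ v = 0 → a j ⬝ᵥ v = 0 → a l ⬝ᵥ v = 0 → v = 0

theorem exists_common (a b : V3) : ∃ v : V3, v ≠ 0 ∧ a ⬝ᵥ v = 0 ∧ b ⬝ᵥ v = 0 := by
  set M : Matrix (Fin 3) (Fin 3) ℝ := ![a, b, 0] with hM
  have hdet : M.det = 0 := by
    apply Matrix.det_eq_zero_of_row_eq_zero 2
    intro j
    rfl
  obtain ⟨v, hv, hv'⟩ := Matrix.exists_mulVec_eq_zero_iff.2 hdet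
  exact ⟨v, hv, congrFun hv' 0, congrFun hv' 1⟩

theorem proportional {a b : V3} (ha : a ≠ 0) (hb : b ≠ 0) (h : lineOf a = lineOf b) :
    ∃ c : ℝ, c ≠ 0 ∧ ∀ v : V3, b ⬝ᵥ v = c * (a ⬝ᵥ v) := by
  have key : ∀ v : V3, a ⬝ᵥ v = 0 → b ⬝ᵥ v = 0 := by
    intro v hv
    by_cases hv0 : v = 0
    · rw [hv0, dotProduct_zero]
    · have h1 : Projectivization.mk ℝ v hv0 ∈ lineOf a := (mk_mem_lineOf _ _ _).2 hv
      rw [h] at h1
      exact (mk_mem_lineOf _ _ _).1 h1
  have haa : a ⬝ᵥ a ≠ 0 := by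
    intro h0
    exact ha (dotProduct_self_eq_zero.1 h0)
  have main : ∀ v : V3, b ⬝ᵥ v = ((b ⬝ᵥ a) / (a ⬝ᵥ a)) * (a ⬝ᵥ v) := by
    intro v
    have h1 : a ⬝ᵥ (v - ((a ⬝ᵥ v) / (a ⬝ᵥ a)) • a) = 0 := by
      rw [dotProduct_sub, dotProduct_smul, smul_eq_mul]
      field_simp
      ring
    have h2 := key _ h1
    rw [dotProduct_sub, dotProduct_smul, smul_eq_mul] at h2
    have h3 : b ⬝ᵥ v = (a ⬝ᵥ v) / (a ⬝ᵥ a) * (b ⬝ᵥ a) := by linarith
    rw [h3]; ring
  refine ⟨(b ⬝ᵥ a) / (a ⬝ᵥ a), ?_, main⟩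
  intro h0
  have := main b
  rw [h0, zero_mul] at this
  exact hb (dotProduct_self_eq_zero.1 this)

section Build

variable {ι : Type} [Fintype ι] {k : ℕ} {a : ι → V3} {P : Fin k → V3} {T : Fin k → Finset ι}

theorem exists_third (hc : 3 ≤ Fintype.card ι) (i j : ι) : ∃ l : ι, l ≠ i ∧ l ≠ j := by
  classical
  by_contra hcon
  push Not at hcon
  have : (Finset.univ : Finset ι) ⊆ {i, j} := by
    intro l _
    by_cases h : l = i
    · simp [h]
    · simp [hcon l h]
  have h2 := Finset.card_le_card this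
  have h3 := Finset.card_le_two (a := i) (b := j)
  rw [Finset.card_univ] at h2
  omega

theorem lineOf_injective (hc : 3 ≤ Fintype.card ι) (ht : Triple a) :
    Function.Injective fun i => lineOf (a i) := by
  intro i j hij
  by_contra hne
  obtain ⟨l, hli, hlj⟩ := exists_third hc i j
  obtain ⟨v, hv, hv1, hv2⟩ := exists_common (a i) (a l)
  have h1 : Projectivization.mk ℝ v hv ∈ lineOf (a i) := (mk_mem_lineOf _ _ _).2 hv1
  have hij' : lineOf (a i) = lineOf (a j) := hij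
  rw [hij'] at h1
  have h2 := (mk_mem_lineOf _ _ _).1 h1
  exact hv (ht i j l hne hli.symm hlj.symm v hv1 h2 hv2)

theorem ne_zero_of_triple (hc : 3 ≤ Fintype.card ι) (ht : Triple a) (i : ι) : a i ≠ 0 := by
  intro h0
  obtain ⟨j, hj, -⟩ := exists_third hc i i
  obtain ⟨l, hl1, hl2⟩ := exists_third hc i j
  obtain ⟨v, hv, hv1, hv2⟩ := exists_common (a j) (a l)
  exact hv (ht i j l hj.symm hl1.symm hl2.symm v (by rw [h0, zero_dotProduct]) hv1 hv2)

open Classical in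
theorem build (hc : 3 ≤ Fintype.card ι) (ht : Triple a) (hg : Good a P T)
    (hsum : Fintype.card ι + 4 * k.choose 2 ≤ ∑ i, (T i).card) :
    ((4 * k.choose 2 : ℕ) : ℤ) ∈ sideSums k := by
  set A : Finset (Set P2) := Finset.univ.image fun i => lineOf (a i) with hAdef
  have hinj := lineOf_injective hc ht
  have hcard : A.card = Fintype.card ι := by
    rw [hAdef, Finset.card_image_of_injective _ hinj, Finset.card_univ]
  have hmem : ∀ l, l ∈ A ↔ ∃ i, lineOf (a i) = l := by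
    intro l
    rw [hAdef, Finset.mem_image]
    simp
  have hA : IsSimpleArrangement A := by
    refine ⟨?_, by omega, ?_⟩
    · intro l hl
      obtain ⟨i, rfl⟩ := (hmem l).1 hl
      exact ⟨a i, ne_zero_of_triple hc ht i, rfl⟩
    · intro l₁ h₁ l₂ h₂ l₃ h₃ h12 h13 h23
      obtain ⟨i, rfl⟩ := (hmem _).1 h₁
      obtain ⟨j, rfl⟩ := (hmem _).1 h₂
      obtain ⟨m, rfl⟩ := (hmem _).1 h₃
      rw [Set.eq_empty_iff_forall_notMem]
      rintro p ⟨⟨hp1, hp2⟩, hp3⟩
      exact p.rep_nonzero (ht i j m (fun h => h12 (by rw [h])) (fun h => h13 (by rw [h]))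
        (fun h => h23 (by rw [h])) p.rep hp1 hp2 hp3)
  have hAne : A.Nonempty := by
    rw [← Finset.card_pos]; omega
  -- covectors
  have hcov : ∀ i, ∃ c : ℝ, c ≠ 0 ∧ ∀ v : V3, cov (lineOf (a i)) ⬝ᵥ v = c * (a i ⬝ᵥ v) := by
    intro i
    have hl : IsLine (lineOf (a i)) := ⟨a i, ne_zero_of_triple hc ht i, rfl⟩
    exact proportional (ne_zero_of_triple hc ht i) (cov_ne_zero hl) (lineOf_cov hl).symm
  have hx : ∀ i, ∀ l ∈ A, cov l ⬝ᵥ P i ≠ 0 := by
    intro i l hl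
    obtain ⟨j, rfl⟩ := (hmem l).1 hl
    obtain ⟨c, hc0, hcv⟩ := hcov j
    rw [hcv]
    exact mul_ne_zero hc0 (hg.h1 i j)
  have hprod : ∀ j, ∀ v w : V3, ∃ c : ℝ, 0 < c ∧
      (cov (lineOf (a j)) ⬝ᵥ v) * (cov (lineOf (a j)) ⬝ᵥ w) = c * ((a j ⬝ᵥ v) * (a j ⬝ᵥ w)) := by
    intro j v w
    obtain ⟨c, hc0, hcv⟩ := hcov j
    refine ⟨c * c, mul_self_pos.2 hc0, ?_⟩
    rw [hcv, hcv]; ring
  set F : Fin k → Set P2 := fun i => pcone (covs A) (P i) with hF
  have hFface : ∀ i, IsFace A (F i) := fun i => (isFace_iff hA.isLine hAne).2 ⟨P i, hx i, rfl⟩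
  have hFinj : Function.Injective F := by
    intro i j hij
    by_contra hne
    obtain ⟨⟨l, hl⟩, ⟨m, hm⟩⟩ := hg.h3 i j hne
    have hPj : P j ≠ 0 := by
      intro h0
      have := hg.h1 j l
      rw [h0, dotProduct_zero] at this
      exact this rfl
    have h1 : Projectivization.mk ℝ (P j) hPj ∈ F j := by
      rw [hF, mk_mem_pcone]
      left
      rintro b ⟨l, hl, rfl⟩
      exact mul_self_pos.2 (hx j l hl)
    rw [← hij, hF, mk_mem_pcone] at h1
    rcases h1 with h1 | h1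
    · have h2 := h1 (cov (lineOf (a l))) ⟨_, (hmem _).2 ⟨l, rfl⟩, rfl⟩
      obtain ⟨c, hc0, hcv⟩ := hprod l (P i) (P j)
      rw [hcv] at h2
      nlinarith
    · have h2 := h1 (cov (lineOf (a m))) ⟨_, (hmem _).2 ⟨m, rfl⟩, rfl⟩
      obtain ⟨c, hc0, hcv⟩ := hprod m (P i) (P j)
      rw [dotProduct_neg, mul_neg, hcv] at h2
      nlinarith [mul_pos hc0 hm]
  have hTle : ∀ i, (T i).card ≤ (sides A (F i)).card := by
    intro i
    rw [← Finset.card_image_of_injective (T i) hinj]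
    refine Finset.card_le_card ?_
    intro l hl
    obtain ⟨j, hj, rfl⟩ := Finset.mem_image.1 hl
    rw [hF, mem_sides_iff hA (hx i)]
    refine ⟨(hmem _).2 ⟨j, rfl⟩, ?_⟩
    obtain ⟨z, hz0, hz⟩ := hg.h2 i j hj
    refine ⟨z, ?_, ?_⟩
    · obtain ⟨c, hc0, hcv⟩ := hcov j
      rw [hcv, hz0, mul_zero]
    · intro m hm hml
      obtain ⟨m', rfl⟩ := (hmem m).1 hm
      obtain ⟨c, hc0, hcv⟩ := hprod m' (P i) z
      rw [hcv]
      exact mul_pos hc0 (hz m' (fun h => hml (by rw [h])))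
  have hup := upper hA hFinj hFface
  have hlow : ∑ i, (T i).card ≤ ∑ i, (sides A (F i)).card := Finset.sum_le_sum fun i _ => hTle i
  refine ⟨A, hA, F, hFinj, hFface, ?_⟩
  have heq : ∑ i, (sides A (F i)).card = A.card + 4 * k.choose 2 := by omega
  rw [← Nat.cast_sum, heq]
  push_cast
  ring

end Build

/-! ### Perturbation -/

section Perturb

variable {ι : Type} [Fintype ι] {k : ℕ} {a : ι → V3} {P : Fin k → V3} {T : Fin k → Finset ι}

open Filter Topology

/-- The perturbed covectors. -/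
def pert (a : ι → V3) (t : ι → ℝ) (e : ℝ) (l : ι) : V3 := a l + e • ![1, t l, t l ^ 2]

omit [Fintype ι] in
theorem pert_dot (a : ι → V3) (t : ι → ℝ) (e : ℝ) (l : ι) (v : V3) :
    pert a t e l ⬝ᵥ v = a l ⬝ᵥ v + e * ((![1, t l, t l ^ 2] : V3) ⬝ᵥ v) := by
  unfold pert
  rw [add_dotProduct, smul_dotProduct, smul_eq_mul]

omit [Fintype ι] in
theorem continuous_pert_dot (a : ι → V3) (t : ι → ℝ) (l : ι) (v : V3) :
    Continuous fun e => pert a t e l ⬝ᵥ v := by
  simp only [pert_dot]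
  fun_prop

theorem eventually_good (hg : Good a P T) (t : ι → ℝ) :
    ∀ᶠ e in 𝓝 (0 : ℝ), Good (pert a t e) P T := by
  have h0 : ∀ l v, pert a t 0 l ⬝ᵥ v = a l ⬝ᵥ v := by
    intro l v
    rw [pert_dot]; ring
  have e1 : ∀ᶠ e in 𝓝 (0 : ℝ), ∀ i l, pert a t e l ⬝ᵥ P i ≠ 0 := by
    rw [eventually_all]
    intro i
    rw [eventually_all]
    intro l
    refine (continuous_pert_dot a t l (P i)).continuousAt.eventually_ne ?_
    rw [h0]
    exact hg.h1 i l
  have e2 : ∀ᶠ e in 𝓝 (0 : ℝ), ∀ i, ∀ l, l ∈ T i → ∃ z : V3, pert a t e l ⬝ᵥ z = 0 ∧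
      ∀ m, m ≠ l → 0 < (pert a t e m ⬝ᵥ P i) * (pert a t e m ⬝ᵥ z) := by
    rw [eventually_all]
    intro i
    rw [eventually_all]
    intro l
    by_cases hl : l ∈ T i
    · obtain ⟨z, hz0, hz⟩ := hg.h2 i l hl
      have hne : pert a t 0 l ⬝ᵥ P i ≠ 0 := by rw [h0]; exact hg.h1 i l
      -- the perturbed witness
      have hc : ∀ m, ContinuousAt (fun e => (pert a t e m ⬝ᵥ P i) *
          (pert a t e m ⬝ᵥ z - (pert a t e l ⬝ᵥ z) / (pert a t e l ⬝ᵥ P i) *
            (pert a t e m ⬝ᵥ P i))) 0 := by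
        intro m
        refine (continuous_pert_dot a t m (P i)).continuousAt.mul
          ((continuous_pert_dot a t m z).continuousAt.sub
            (ContinuousAt.mul (ContinuousAt.div (continuous_pert_dot a t l z).continuousAt
              (continuous_pert_dot a t l (P i)).continuousAt hne)
              (continuous_pert_dot a t m (P i)).continuousAt))
      have e3 : ∀ᶠ e in 𝓝 (0 : ℝ), ∀ m, m ≠ l → 0 < (pert a t e m ⬝ᵥ P i) *
          (pert a t e m ⬝ᵥ z - (pert a t e l ⬝ᵥ z) / (pert a t e l ⬝ᵥ P i) *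
            (pert a t e m ⬝ᵥ P i)) := by
        rw [eventually_all]
        intro m
        by_cases hm : m = l
        · exact Eventually.of_forall fun e h => absurd hm h
        · have : ∀ᶠ e in 𝓝 (0 : ℝ), 0 < (pert a t e m ⬝ᵥ P i) *
              (pert a t e m ⬝ᵥ z - (pert a t e l ⬝ᵥ z) / (pert a t e l ⬝ᵥ P i) *
              (pert a t e m ⬝ᵥ P i)) := by
            refine (hc m).eventually (lt_mem_nhds ?_)
            simp only [h0]
            rw [hz0, zero_div, zero_mul, sub_zero]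
            exact hz m hm
          exact this.mono fun e he _ => he
      filter_upwards [e1, e3] with e he1 he3 _
      refine ⟨z - ((pert a t e l ⬝ᵥ z) / (pert a t e l ⬝ᵥ P i)) • P i, ?_, ?_⟩
      · rw [dotProduct_sub, dotProduct_smul, smul_eq_mul, div_mul_cancel₀ _ (he1 i l), sub_self]
      · intro m hm
        rw [dotProduct_sub, dotProduct_smul, smul_eq_mul]
        exact he3 m hm
    · exact Eventually.of_forall fun e h => absurd h hl
  have e3 : ∀ᶠ e in 𝓝 (0 : ℝ), ∀ i j, i ≠ j →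
      (∃ l, (pert a t e l ⬝ᵥ P i) * (pert a t e l ⬝ᵥ P j) < 0) ∧
      (∃ l, 0 < (pert a t e l ⬝ᵥ P i) * (pert a t e l ⬝ᵥ P j)) := by
    rw [eventually_all]
    intro i
    rw [eventually_all]
    intro j
    by_cases hij : i = j
    · exact Eventually.of_forall fun e h => absurd hij h
    · obtain ⟨⟨l, hl⟩, ⟨m, hm⟩⟩ := hg.h3 i j hij
      have c1 : ∀ᶠ e in 𝓝 (0 : ℝ), (pert a t e l ⬝ᵥ P i) * (pert a t e l ⬝ᵥ P j) < 0 := by
        refine ((continuous_pert_dot a t l (P i)).mul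
          (continuous_pert_dot a t l (P j))).continuousAt.eventually (gt_mem_nhds ?_)
        change (pert a t 0 l ⬝ᵥ P i) * (pert a t 0 l ⬝ᵥ P j) < 0
        rw [h0, h0]
        exact hl
      have c2 : ∀ᶠ e in 𝓝 (0 : ℝ), 0 < (pert a t e m ⬝ᵥ P i) * (pert a t e m ⬝ᵥ P j) := by
        refine ((continuous_pert_dot a t m (P i)).mul
          (continuous_pert_dot a t m (P j))).continuousAt.eventually (lt_mem_nhds ?_)
        change 0 < (pert a t 0 m ⬝ᵥ P i) * (pert a t 0 m ⬝ᵥ P j)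
        rw [h0, h0]
        exact hm
      filter_upwards [c1, c2] with e h1 h2 _
      exact ⟨⟨l, h1⟩, ⟨m, h2⟩⟩
  filter_upwards [e1, e2, e3] with e h1 h2 h3
  exact ⟨h1, h2, h3⟩

theorem eventually_det (u v w : V3) (x y z : ℝ) (hxy : x ≠ y) (hxz : x ≠ z) (hyz : y ≠ z) :
    ∀ᶠ e in 𝓝[≠] (0 : ℝ), Matrix.det (Matrix.of ![u + e • ![1, x, x ^ 2], v + e • ![1, y, y ^ 2],
      w + e • ![1, z, z ^ 2]]) ≠ 0 := by
  -- the polynomial in `e`
  let p : Polynomial ℝ := Matrix.det (Matrix.of ![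
    ![Polynomial.C (u 0) + Polynomial.X * Polynomial.C 1,
      Polynomial.C (u 1) + Polynomial.X * Polynomial.C x,
      Polynomial.C (u 2) + Polynomial.X * Polynomial.C (x ^ 2)],
    ![Polynomial.C (v 0) + Polynomial.X * Polynomial.C 1,
      Polynomial.C (v 1) + Polynomial.X * Polynomial.C y,
      Polynomial.C (v 2) + Polynomial.X * Polynomial.C (y ^ 2)],
    ![Polynomial.C (w 0) + Polynomial.X * Polynomial.C 1,
      Polynomial.C (w 1) + Polynomial.X * Polynomial.C z,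
      Polynomial.C (w 2) + Polynomial.X * Polynomial.C (z ^ 2)]])
  have hp : ∀ e : ℝ, p.eval e = Matrix.det (Matrix.of ![u + e • ![1, x, x ^ 2],
      v + e • ![1, y, y ^ 2], w + e • ![1, z, z ^ 2]]) := by
    intro e
    simp only [p, Matrix.det_fin_three, Matrix.of_apply]
    simp [Matrix.vecHead, Matrix.vecTail]
    ring
  have hp0 : p ≠ 0 := by
    intro h0
    -- evaluate: the function would vanish identically
    have hz : ∀ e : ℝ, p.eval e = 0 := by intro e; rw [h0]; simp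
    -- third difference gives the leading coefficient
    have h3 : p.eval 3 - 3 * p.eval 2 + 3 * p.eval 1 - p.eval 0 =
        6 * ((y - x) * (z - x) * (z - y)) := by
      rw [hp, hp, hp, hp]
      simp only [Matrix.det_fin_three, Matrix.of_apply]
      simp [Matrix.vecHead, Matrix.vecTail]
      ring
    rw [hz, hz, hz, hz] at h3
    have h4 : (y - x) * (z - x) * (z - y) ≠ 0 :=
      mul_ne_zero (mul_ne_zero (sub_ne_zero.2 hxy.symm) (sub_ne_zero.2 hxz.symm))
        (sub_ne_zero.2 hyz.symm)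
    apply h4
    linarith
  have hfin : {e : ℝ | p.eval e = 0}.Finite := by
    refine (p.roots.toFinset.finite_toSet).subset ?_
    intro e he
    simp only [Finset.mem_coe, Multiset.mem_toFinset]
    exact (Polynomial.mem_roots hp0).2 he
  have hcof : ∀ᶠ e in cofinite, p.eval e ≠ 0 := hfin.eventually_cofinite_notMem
  refine (hcof.filter_mono (nhdsNE_le_cofinite 0)).mono ?_
  intro e he
  rw [← hp]
  exact he

theorem eventually_triple (a : ι → V3) {t : ι → ℝ} (ht : Function.Injective t) :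
    ∀ᶠ e in 𝓝[≠] (0 : ℝ), Triple (pert a t e) := by
  have key : ∀ᶠ e in 𝓝[≠] (0 : ℝ), ∀ i j l : ι, i ≠ j → i ≠ l → j ≠ l →
      Matrix.det (Matrix.of ![pert a t e i, pert a t e j, pert a t e l]) ≠ 0 := by
    rw [eventually_all]; intro i
    rw [eventually_all]; intro j
    rw [eventually_all]; intro l
    by_cases h : i ≠ j ∧ i ≠ l ∧ j ≠ l
    · filter_upwards [eventually_det (a i) (a j) (a l) (t i) (t j) (t l)
        (fun hh => h.1 (ht hh)) (fun hh => h.2.1 (ht hh)) (fun hh => h.2.2 (ht hh))] with e he _ _ _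
      exact he
    · exact Eventually.of_forall fun e h1 h2 h3 => absurd ⟨h1, h2, h3⟩ h
  filter_upwards [key] with e he i j l hij hil hjl v h1 h2 h3
  refine Matrix.eq_zero_of_mulVec_eq_zero (he i j l hij hil hjl) ?_
  funext r
  fin_cases r
  · exact h1
  · exact h2
  · exact h3

theorem build' (hc : 3 ≤ Fintype.card ι) (hg : Good a P T)
    (hsum : Fintype.card ι + 4 * k.choose 2 ≤ ∑ i, (T i).card) :
    ((4 * k.choose 2 : ℕ) : ℤ) ∈ sideSums k := by
  obtain ⟨t, ht⟩ : ∃ t : ι → ℝ, Function.Injective t := by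
    refine ⟨fun i => ((Fintype.equivFin ι i : ℕ) : ℝ), ?_⟩
    intro i j hij
    have hij' : ((Fintype.equivFin ι i : ℕ) : ℝ) = ((Fintype.equivFin ι j : ℕ) : ℝ) := hij
    have : (Fintype.equivFin ι i : ℕ) = (Fintype.equivFin ι j : ℕ) := by exact_mod_cast hij'
    exact (Fintype.equivFin ι).injective (Fin.ext this)
  have h1 := (eventually_good hg t).filter_mono (nhdsWithin_le_nhds (s := {0}ᶜ))
  obtain ⟨e, he1, he2⟩ := (h1.and (eventually_triple a ht)).exists
  exact build hc he2 he1 hsum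

end Perturb

end Pool.Agent.Q227.SF
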