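import Pool.Agent.Q227.SF.Cons

/-!
# The total number of sides of `k` faces of a simple arrangement: `a(k) = 2k(k-1)`

`sideSums k` is the set of all numbers `q₁ + ... + q_k - n` for a simple arrangement of `n` lines in
the real projective plane and `k` pairwise distinct faces of it, a `q₁`-gon, ..., a `q_k`-gon.
-/

namespace Pool.Agent.Results.MP_fa8579_co.SumOfSides

open Pool.Agent.Q227.SF

/-- The constant `a(k)` of the problem. -/
noncomputable def a (k : ℕ) : ℤ := sSup (sideSums k)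

theorem greatest (k : ℕ) (hk : 1 ≤ k) :
    IsGreatest (sideSums k) (2 * (k : ℤ) * ((k : ℤ) - 1)) := by
  have hch : ((4 * k.choose 2 : ℕ) : ℤ) = 2 * (k : ℤ) * ((k : ℤ) - 1) := by
    obtain ⟨m, rfl⟩ : ∃ m, k = m + 1 := ⟨k - 1, by omega⟩
    have h1 : (m + 1) * ((m + 1) - 1) = (m + 1).choose 2 * 2 := by
      rw [Nat.choose_two_right]
      rw [Nat.div_mul_cancel]
      rw [Nat.add_sub_cancel, mul_comm]
      exact (Nat.even_mul_succ_self m).two_dvd
    rw [Nat.add_sub_cancel] at h1
    have h2 : (((m + 1) * m : ℕ) : ℤ) = (((m + 1).choose 2 * 2 : ℕ) : ℤ) := by rw [h1]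
    push_cast at h2 ⊢
    linarith
  rw [← hch]
  constructor
  · rcases Nat.lt_or_ge k 2 with h | h
    · have : k = 1 := by omega
      subst this
      exact lower_one
    · exact lower_two h
  · rintro m ⟨A, hA, F, hFi, hF, rfl⟩
    have h := upper hA hFi hF
    have h' : ((∑ i, (sides A (F i)).card : ℕ) : ℤ) ≤ ((A.card + 4 * k.choose 2 : ℕ) : ℤ) := by
      exact_mod_cast h
    push_cast at h' ⊢
    linarith

/-- For every `k ≥ 1` the supremum `a(k)` is attained and equals `2k(k-1)`. -/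
theorem result : ∀ k : ℕ, 1 ≤ k →
    IsGreatest (sideSums k) (2 * (k : ℤ) * ((k : ℤ) - 1)) ∧ a k = 2 * (k : ℤ) * ((k : ℤ) - 1) :=
  fun k hk => ⟨greatest k hk, (greatest k hk).csSup_eq⟩

end Pool.Agent.Results.MP_fa8579_co.SumOfSides
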