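import Pool.Agent.Q227.SF.Defs

namespace Pool.Agent.Q227.SF

open scoped Matrix

theorem continuous_dot (b : V3) : Continuous fun v : V3 => b ⬝ᵥ v := by
  unfold dotProduct
  fun_prop

theorem isOpen_cone {B : Set V3} (hB : B.Finite) (x : V3) : IsOpen (cone B x) := by
  have : cone B x = ⋂ b ∈ B, {y | 0 < (b ⬝ᵥ x) * (b ⬝ᵥ y)} := by
    ext y
    simp [cone]
  rw [this]
  refine hB.isOpen_biInter fun b _ => ?_
  exact isOpen_lt continuous_const (continuous_const.mul (continuous_dot b))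

theorem continuous_mk' :
    Continuous (Projectivization.mk' ℝ : {v : V3 // v ≠ 0} → P2) :=
  continuous_coinduced_rng

theorem isOpen_iff {s : Set P2} :
    IsOpen s ↔ IsOpen ((Projectivization.mk' ℝ : {v : V3 // v ≠ 0} → P2) ⁻¹' s) :=
  isOpen_coinduced

theorem isOpen_pcone {B : Set V3} (hB : B.Finite) (x : V3) : IsOpen (pcone B x) := by
  rw [isOpen_iff]
  have : (Projectivization.mk' ℝ : {v : V3 // v ≠ 0} → P2) ⁻¹' (pcone B x) =
      Subtype.val ⁻¹' (cone B x) ∪ Subtype.val ⁻¹' ((fun v : V3 => -v) ⁻¹' (cone B x)) := by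
    ext ⟨v, hv⟩
    simp only [Set.mem_preimage, Projectivization.mk'_eq_mk, Set.mem_union]
    exact mk_mem_pcone hv
  rw [this]
  exact ((isOpen_cone hB x).preimage continuous_subtype_val).union
    (((isOpen_cone hB x).preimage continuous_neg).preimage continuous_subtype_val)

/-- The set of points which are on both sides. -/
def mixed (B : Set V3) (x : V3) : Set P2 :=
  {p | (∃ b ∈ B, (b ⬝ᵥ x) * (b ⬝ᵥ p.rep) < 0) ∧ (∃ b ∈ B, 0 < (b ⬝ᵥ x) * (b ⬝ᵥ p.rep))}

theorem mk_mem_mixed {B : Set V3} {x v : V3} (hv : v ≠ 0) :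
    Projectivization.mk ℝ v hv ∈ mixed B x ↔
      (∃ b ∈ B, (b ⬝ᵥ x) * (b ⬝ᵥ v) < 0) ∧ (∃ b ∈ B, 0 < (b ⬝ᵥ x) * (b ⬝ᵥ v)) := by
  obtain ⟨c, hc⟩ := Projectivization.exists_smul_eq_mk_rep ℝ v hv
  unfold mixed
  rw [Set.mem_ofPred_eq, ← hc]
  have hh : (c • v : V3) = (c : ℝ) • v := rfl
  have e : ∀ b : V3, (b ⬝ᵥ x) * (b ⬝ᵥ (c • v : V3)) = (c : ℝ) * ((b ⬝ᵥ x) * (b ⬝ᵥ v)) := by
    intro b
    rw [hh, dotProduct_smul, smul_eq_mul]; ring
  simp only [e]
  rcases lt_or_gt_of_ne c.ne_zero with h | h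
  · have h1 : ∀ t : ℝ, (c : ℝ) * t < 0 ↔ 0 < t := by
      intro t
      constructor
      · intro ht
        by_contra hcon
        push Not at hcon
        nlinarith [mul_nonneg_of_nonpos_of_nonpos h.le hcon]
      · intro ht; nlinarith
    have h2 : ∀ t : ℝ, 0 < (c : ℝ) * t ↔ t < 0 := by
      intro t
      constructor
      · intro ht
        by_contra hcon
        push Not at hcon
        nlinarith [mul_nonneg hcon (neg_nonneg.2 h.le)]
      · intro ht; nlinarith
    simp only [h1, h2]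
    tauto
  · have h1 : ∀ t : ℝ, (c : ℝ) * t < 0 ↔ t < 0 := by
      intro t
      constructor
      · intro ht
        by_contra hcon
        push Not at hcon
        nlinarith [mul_nonneg h.le hcon]
      · intro ht; nlinarith
    have h2 : ∀ t : ℝ, 0 < (c : ℝ) * t ↔ 0 < t := by
      intro t
      constructor
      · intro ht
        exact (mul_pos_iff_of_pos_left h).1 ht
      · intro ht; exact mul_pos h ht
    simp only [h1, h2]

theorem isOpen_mixed (B : Set V3) (x : V3) : IsOpen (mixed B x) := by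
  rw [isOpen_iff]
  have : (Projectivization.mk' ℝ : {v : V3 // v ≠ 0} → P2) ⁻¹' (mixed B x) =
      Subtype.val ⁻¹' ((⋃ b ∈ B, {v : V3 | (b ⬝ᵥ x) * (b ⬝ᵥ v) < 0}) ∩
        (⋃ b ∈ B, {v : V3 | 0 < (b ⬝ᵥ x) * (b ⬝ᵥ v)})) := by
    ext ⟨v, hv⟩
    simp only [Set.mem_preimage, Projectivization.mk'_eq_mk]
    rw [mk_mem_mixed hv]
    simp
  rw [this]
  refine IsOpen.preimage continuous_subtype_val (IsOpen.inter ?_ ?_)
  · exact isOpen_biUnion fun b _ =>
      isOpen_lt (continuous_const.mul (continuous_dot b)) continuous_const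
  · exact isOpen_biUnion fun b _ =>
      isOpen_lt continuous_const (continuous_const.mul (continuous_dot b))

theorem disjoint_pcone_mixed (B : Set V3) (x : V3) : Disjoint (pcone B x) (mixed B x) := by
  rw [Set.disjoint_left]
  rintro p (hp | hp) ⟨⟨b, hb, h1⟩, ⟨b', hb', h2⟩⟩
  · exact absurd (hp b hb) (not_lt.2 h1.le)
  · have := hp b' hb'
    rw [dotProduct_neg] at this
    nlinarith

/-- A connected set avoiding the lines `b · x = 0`, `b ∈ B`, stays in one `pcone`. -/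
theorem subset_pcone {B : Set V3} (hB : B.Finite) {x : V3} (hx : x ≠ 0)
    (hbx : ∀ b ∈ B, b ⬝ᵥ x ≠ 0) {S : Set P2} (hS : IsPreconnected S)
    (hSB : ∀ p ∈ S, ∀ b ∈ B, b ⬝ᵥ p.rep ≠ 0) (hxS : Projectivization.mk ℝ x hx ∈ S) :
    S ⊆ pcone B x := by
  refine hS.subset_left_of_subset_union (isOpen_pcone hB x) (isOpen_mixed B x)
    (disjoint_pcone_mixed B x) ?_ ⟨_, hxS, ?_⟩
  · intro p hp
    by_cases h1 : ∀ b ∈ B, 0 < (b ⬝ᵥ x) * (b ⬝ᵥ p.rep)
    · exact Or.inl (Or.inl h1)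
    · by_cases h2 : ∀ b ∈ B, (b ⬝ᵥ x) * (b ⬝ᵥ p.rep) < 0
      · refine Or.inl (Or.inr ?_)
        intro b hb
        have := h2 b hb
        rw [dotProduct_neg]
        linarith
      · right
        push Not at h1 h2
        obtain ⟨b, hb, h1⟩ := h1
        obtain ⟨b', hb', h2⟩ := h2
        refine ⟨⟨b, hb, lt_of_le_of_ne h1 ?_⟩, ⟨b', hb', lt_of_le_of_ne h2 (Ne.symm ?_)⟩⟩
        · exact mul_ne_zero (hbx b hb) (hSB p hp b hb)
        · exact mul_ne_zero (hbx b' hb') (hSB p hp b' hb')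
  · rw [mk_mem_pcone hx]
    left
    intro b hb
    exact mul_self_pos.2 (hbx b hb)

theorem convex_cone' (B : Set V3) (x : V3) : Convex ℝ (cone B x) := by
  intro y hy z hz a b ha hb hab c hc
  have h1 := hy c hc
  have h2 := hz c hc
  have e : (c ⬝ᵥ x) * (c ⬝ᵥ (a • y + b • z)) =
      a * ((c ⬝ᵥ x) * (c ⬝ᵥ y)) + b * ((c ⬝ᵥ x) * (c ⬝ᵥ z)) := by
    rw [dotProduct_add, dotProduct_smul, dotProduct_smul, smul_eq_mul, smul_eq_mul]; ring
  rw [e]
  rcases eq_or_lt_of_le ha with h | h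
  · have : b = 1 := by linarith
    rw [← h, this]; linarith
  · have := mul_pos h h1
    have := mul_nonneg hb h2.le
    linarith

theorem ne_zero_of_mem_cone {B : Set V3} (hB : B.Nonempty) {x y : V3} (hy : y ∈ cone B x) :
    y ≠ 0 := by
  rintro rfl
  obtain ⟨b, hb⟩ := hB
  have := hy b hb
  simp at this

theorem pcone_eq_image {B : Set V3} (hB : B.Nonempty) (x : V3) :
    pcone B x = (Projectivization.mk' ℝ : {v : V3 // v ≠ 0} → P2) ''
      (Subtype.val ⁻¹' (cone B x)) := by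
  ext p
  constructor
  · rintro (hp | hp)
    · refine ⟨⟨p.rep, p.rep_nonzero⟩, hp, ?_⟩
      simp
    · refine ⟨⟨-p.rep, neg_ne_zero.2 p.rep_nonzero⟩, hp, ?_⟩
      simp only [Projectivization.mk'_eq_mk]
      conv_rhs => rw [← p.mk_rep]
      rw [Projectivization.mk_eq_mk_iff']
      exact ⟨-1, by simp⟩
  · rintro ⟨⟨v, hv⟩, h, rfl⟩
    rw [Projectivization.mk'_eq_mk, mk_mem_pcone hv]
    exact Or.inl h

theorem isPreconnected_pcone {B : Set V3} (hB : B.Nonempty) (x : V3) :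
    IsPreconnected (pcone B x) := by
  rw [pcone_eq_image hB]
  refine IsPreconnected.image ?_ _ continuous_mk'.continuousOn
  have hi : Topology.IsInducing (Subtype.val : {v : V3 // v ≠ 0} → V3) :=
    Topology.IsInducing.subtypeVal
  rw [← hi.isPreconnected_image]
  have : (Subtype.val : {v : V3 // v ≠ 0} → V3) '' (Subtype.val ⁻¹' (cone B x)) = cone B x := by
    ext v
    constructor
    · rintro ⟨w, hw, rfl⟩
      exact hw
    · intro h
      exact ⟨⟨v, ne_zero_of_mem_cone hB h⟩, h, rfl⟩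
  rw [this]
  exact (convex_cone' B x).isPreconnected

end Pool.Agent.Q227.SF
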