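import Pool.Agent.Q227.SF.Face

namespace Pool.Agent.Q227.SF

open scoped Matrix

/-- Three covectors without common nonzero zero: every covector is a combination of them. -/
theorem exists_comb {a b c : V3} (h : ∀ v : V3, a ⬝ᵥ v = 0 → b ⬝ᵥ v = 0 → c ⬝ᵥ v = 0 → v = 0)
    (d : V3) : ∃ p q r : ℝ, ∀ v : V3, d ⬝ᵥ v = p * (a ⬝ᵥ v) + q * (b ⬝ᵥ v) + r * (c ⬝ᵥ v) := by
  set M : Matrix (Fin 3) (Fin 3) ℝ := ![a, b, c] with hM
  have hinj : Function.Injective M.mulVec := by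
    intro v w hvw
    have h0 : M.mulVec (v - w) = 0 := by
      rw [Matrix.mulVec_sub, hvw, sub_self]
    have ha : a ⬝ᵥ (v - w) = 0 := congrFun h0 0
    have hb : b ⬝ᵥ (v - w) = 0 := congrFun h0 1
    have hc : c ⬝ᵥ (v - w) = 0 := congrFun h0 2
    exact sub_eq_zero.1 (h _ ha hb hc)
  have hsur := Matrix.vecMul_surjective_iff_isUnit.2 (Matrix.mulVec_injective_iff_isUnit.1 hinj)
  obtain ⟨u, hu⟩ := hsur d
  refine ⟨u 0, u 1, u 2, fun v => ?_⟩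
  have hu' : Matrix.vecMul u M = d := hu
  rw [← hu', ← Matrix.dotProduct_mulVec]
  have e0 : M.mulVec v 0 = a ⬝ᵥ v := rfl
  have e1 : M.mulVec v 1 = b ⬝ᵥ v := rfl
  have e2 : M.mulVec v 2 = c ⬝ᵥ v := rfl
  simp only [dotProduct, Fin.sum_univ_three] at e0 e1 e2 ⊢
  rw [e0, e1, e2]

theorem aux_neg {p q u v u' v' : ℝ} (hu : 0 < u) (hv : 0 < v) (hu' : 0 < u') (hv' : 0 < v')
    (h1 : 0 < p * u + q * v) (h2 : p * u' + q * v' < 0) : p * q < 0 := by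
  rcases le_or_gt 0 p with hp | hp
  · rcases le_or_gt 0 q with hq | hq
    · nlinarith [mul_nonneg hp hu'.le, mul_nonneg hq hv'.le]
    · rcases eq_or_lt_of_le hp with hp0 | hp0
      · rw [← hp0] at h1; nlinarith
      · exact mul_neg_of_pos_of_neg hp0 hq
  · rcases le_or_gt q 0 with hq | hq
    · nlinarith
    · exact mul_neg_of_neg_of_pos hp hq

/-- The core of the bound: three lines that do not separate two faces, but bound both of them,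
cannot be together with a line that separates the two faces. -/
theorem core {a b c d : V3} (h : ∀ v : V3, a ⬝ᵥ v = 0 → b ⬝ᵥ v = 0 → c ⬝ᵥ v = 0 → v = 0)
    {y₁ y₂ y₃ z₁ z₂ z₃ : V3}
    (a1 : a ⬝ᵥ y₁ = 0) (b1 : 0 < b ⬝ᵥ y₁) (c1 : 0 < c ⬝ᵥ y₁) (d1 : 0 < d ⬝ᵥ y₁)
    (a2 : 0 < a ⬝ᵥ y₂) (b2 : b ⬝ᵥ y₂ = 0) (c2 : 0 < c ⬝ᵥ y₂) (d2 : 0 < d ⬝ᵥ y₂)
    (a3 : 0 < a ⬝ᵥ y₃) (b3 : 0 < b ⬝ᵥ y₃) (c3 : c ⬝ᵥ y₃ = 0) (d3 : 0 < d ⬝ᵥ y₃)
    (a1' : a ⬝ᵥ z₁ = 0) (b1' : 0 < b ⬝ᵥ z₁) (c1' : 0 < c ⬝ᵥ z₁) (d1' : d ⬝ᵥ z₁ < 0)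
    (a2' : 0 < a ⬝ᵥ z₂) (b2' : b ⬝ᵥ z₂ = 0) (c2' : 0 < c ⬝ᵥ z₂) (d2' : d ⬝ᵥ z₂ < 0)
    (a3' : 0 < a ⬝ᵥ z₃) (b3' : 0 < b ⬝ᵥ z₃) (c3' : c ⬝ᵥ z₃ = 0) (d3' : d ⬝ᵥ z₃ < 0) :
    False := by
  obtain ⟨p, q, r, hpqr⟩ := exists_comb h d
  rw [hpqr] at d1 d2 d3 d1' d2' d3'
  rw [a1, mul_zero, zero_add] at d1
  rw [a1', mul_zero, zero_add] at d1'
  rw [b2, mul_zero, add_zero] at d2
  rw [b2', mul_zero, add_zero] at d2'
  rw [c3, mul_zero, add_zero] at d3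
  rw [c3', mul_zero, add_zero] at d3'
  have h1 := aux_neg b1 c1 b1' c1' d1 d1'
  have h2 := aux_neg a2 c2 a2' c2' d2 d2'
  have h3 := aux_neg a3 b3 a3' b3' d3 d3'
  have h4 := mul_pos_of_neg_of_neg h1 h2
  have h5 := mul_neg_of_pos_of_neg h4 h3
  nlinarith [sq_nonneg (p * q * r)]

variable {A : Finset (Set P2)}

theorem no_common (hA : IsSimpleArrangement A) {l₁ l₂ l₃ : Set P2} (h₁ : l₁ ∈ A) (h₂ : l₂ ∈ A)
    (h₃ : l₃ ∈ A) (h12 : l₁ ≠ l₂) (h13 : l₁ ≠ l₃) (h23 : l₂ ≠ l₃) (v : V3)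
    (e1 : cov l₁ ⬝ᵥ v = 0) (e2 : cov l₂ ⬝ᵥ v = 0) (e3 : cov l₃ ⬝ᵥ v = 0) : v = 0 := by
  by_contra hv
  have := hA.simple l₁ h₁ l₂ h₂ l₃ h₃ h12 h13 h23
  have h : Projectivization.mk ℝ v hv ∈ l₁ ∩ l₂ ∩ l₃ :=
    ⟨⟨(mk_mem_iff (hA.isLine _ h₁) hv).2 e1, (mk_mem_iff (hA.isLine _ h₂) hv).2 e2⟩,
      (mk_mem_iff (hA.isLine _ h₃) hv).2 e3⟩
  rw [this] at h
  exact h

theorem pos_of_pos {s t u : ℝ} (h1 : 0 < s * t) (h2 : 0 < s * u) : 0 < t * u := by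
  have h3 := mul_pos h1 h2
  have h4 : s * t * (s * u) = (t * u) * (s * s) := by ring
  rw [h4] at h3
  exact (mul_pos_iff_of_pos_right (mul_self_pos.2 (left_ne_zero_of_mul h1.ne'))).1 h3

/-- `three` : among lines bounding both `x` and `x'`, with the same sign, at most two, if there is
a line with opposite sign. -/
theorem three_sides (hA : IsSimpleArrangement A) {x x' : V3}
    {l₁ l₂ l₃ m : Set P2} (h₁ : l₁ ∈ A) (h₂ : l₂ ∈ A)
    (h₃ : l₃ ∈ A) (hm : m ∈ A) (h12 : l₁ ≠ l₂) (h13 : l₁ ≠ l₃) (h23 : l₂ ≠ l₃)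
    (s1 : 0 < (cov l₁ ⬝ᵥ x) * (cov l₁ ⬝ᵥ x')) (s2 : 0 < (cov l₂ ⬝ᵥ x) * (cov l₂ ⬝ᵥ x'))
    (s3 : 0 < (cov l₃ ⬝ᵥ x) * (cov l₃ ⬝ᵥ x')) (sm : (cov m ⬝ᵥ x) * (cov m ⬝ᵥ x') < 0)
    (b1 : Bounds A x l₁) (b2 : Bounds A x l₂) (b3 : Bounds A x l₃)
    (b1' : Bounds A x' l₁) (b2' : Bounds A x' l₂) (b3' : Bounds A x' l₃) : False := by
  have m1 : m ≠ l₁ := by rintro rfl; linarith
  have m2 : m ≠ l₂ := by rintro rfl; linarith
  have m3 : m ≠ l₃ := by rintro rfl; linarith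
  obtain ⟨y₁, hy1, hy1'⟩ := b1
  obtain ⟨y₂, hy2, hy2'⟩ := b2
  obtain ⟨y₃, hy3, hy3'⟩ := b3
  obtain ⟨z₁, hz1, hz1'⟩ := b1'
  obtain ⟨z₂, hz2, hz2'⟩ := b2'
  obtain ⟨z₃, hz3, hz3'⟩ := b3'
  -- scaled covectors
  set a := (cov l₁ ⬝ᵥ x) • cov l₁ with ha
  set b := (cov l₂ ⬝ᵥ x) • cov l₂ with hb
  set c := (cov l₃ ⬝ᵥ x) • cov l₃ with hc
  set d := (cov m ⬝ᵥ x) • cov m with hd
  have ea : ∀ v, a ⬝ᵥ v = (cov l₁ ⬝ᵥ x) * (cov l₁ ⬝ᵥ v) := fun v => by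
    rw [ha, smul_dotProduct, smul_eq_mul]
  have eb : ∀ v, b ⬝ᵥ v = (cov l₂ ⬝ᵥ x) * (cov l₂ ⬝ᵥ v) := fun v => by
    rw [hb, smul_dotProduct, smul_eq_mul]
  have ec : ∀ v, c ⬝ᵥ v = (cov l₃ ⬝ᵥ x) * (cov l₃ ⬝ᵥ v) := fun v => by
    rw [hc, smul_dotProduct, smul_eq_mul]
  have ed : ∀ v, d ⬝ᵥ v = (cov m ⬝ᵥ x) * (cov m ⬝ᵥ v) := fun v => by
    rw [hd, smul_dotProduct, smul_eq_mul]
  have n1 : cov l₁ ⬝ᵥ x ≠ 0 := left_ne_zero_of_mul s1.ne'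
  have n2 : cov l₂ ⬝ᵥ x ≠ 0 := left_ne_zero_of_mul s2.ne'
  have n3 : cov l₃ ⬝ᵥ x ≠ 0 := left_ne_zero_of_mul s3.ne'
  have hpos : ∀ {s t u : ℝ}, 0 < s * t → 0 < t * u → 0 < s * u := by
    intro s t u h1 h2
    have h3 := mul_pos h1 h2
    have h4 : s * t * (t * u) = (s * u) * (t * t) := by ring
    rw [h4] at h3
    exact (mul_pos_iff_of_pos_right (mul_self_pos.2 (right_ne_zero_of_mul h1.ne'))).1 h3
  have hneg : ∀ {s t u : ℝ}, s * t < 0 → 0 < t * u → s * u < 0 := by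
    intro s t u h1 h2
    have : 0 < (-s) * u := hpos (t := t) (by linarith) h2
    linarith
  refine core (a := a) (b := b) (c := c) (d := d) (y₁ := y₁) (y₂ := y₂) (y₃ := y₃) (z₁ := z₁)
    (z₂ := z₂) (z₃ := z₃) ?_ ?_ ?_ ?_ ?_ ?_ ?_ ?_ ?_ ?_ ?_ ?_ ?_ ?_ ?_ ?_ ?_ ?_ ?_ ?_ ?_ ?_ ?_ ?_ ?_
  · intro v h1 h2 h3
    rw [ea] at h1
    rw [eb] at h2
    rw [ec] at h3
    exact no_common hA h₁ h₂ h₃ h12 h13 h23 v ((mul_eq_zero.1 h1).resolve_left n1)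
      ((mul_eq_zero.1 h2).resolve_left n2) ((mul_eq_zero.1 h3).resolve_left n3)
  · rw [ea, hy1, mul_zero]
  · rw [eb]; exact hy1' _ h₂ h12.symm
  · rw [ec]; exact hy1' _ h₃ h13.symm
  · rw [ed]; exact hy1' _ hm m1
  · rw [ea]; exact hy2' _ h₁ h12
  · rw [eb, hy2, mul_zero]
  · rw [ec]; exact hy2' _ h₃ h23.symm
  · rw [ed]; exact hy2' _ hm m2
  · rw [ea]; exact hy3' _ h₁ h13
  · rw [eb]; exact hy3' _ h₂ h23
  · rw [ec, hy3, mul_zero]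
  · rw [ed]; exact hy3' _ hm m3
  · rw [ea, hz1, mul_zero]
  · rw [eb]; exact hpos s2 (hz1' _ h₂ h12.symm)
  · rw [ec]; exact hpos s3 (hz1' _ h₃ h13.symm)
  · rw [ed]; exact hneg sm (hz1' _ hm m1)
  · rw [ea]; exact hpos s1 (hz2' _ h₁ h12)
  · rw [eb, hz2, mul_zero]
  · rw [ec]; exact hpos s3 (hz2' _ h₃ h23.symm)
  · rw [ed]; exact hneg sm (hz2' _ hm m2)
  · rw [ea]; exact hpos s1 (hz3' _ h₁ h13)
  · rw [eb]; exact hpos s2 (hz3' _ h₂ h23)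
  · rw [ec, hz3, mul_zero]
  · rw [ed]; exact hneg sm (hz3' _ hm m3)

theorem bounds_neg {x : V3} {l : Set P2} (h : Bounds A x l) : Bounds A (-x) l := by
  obtain ⟨y, hy, hy'⟩ := h
  refine ⟨-y, by rw [dotProduct_neg, hy, neg_zero], fun m hm hml => ?_⟩
  rw [dotProduct_neg, dotProduct_neg, neg_mul_neg]
  exact hy' m hm hml

theorem pcone_neg (B : Set V3) (x : V3) : pcone B (-x) = pcone B x := by
  ext p
  unfold pcone cone
  simp only [Set.mem_ofPred_eq, dotProduct_neg, neg_mul, mul_neg, neg_neg]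
  tauto

theorem pcone_eq_of_same {B : Set V3} {x x' : V3}
    (h : ∀ b ∈ B, 0 < (b ⬝ᵥ x) * (b ⬝ᵥ x')) : pcone B x = pcone B x' := by
  have key : ∀ y, y ∈ cone B x ↔ y ∈ cone B x' := by
    intro y
    refine forall₂_congr fun b hb => ?_
    have h0 := h b hb
    constructor
    · intro h1
      exact pos_of_pos h0 h1
    · intro h1
      refine pos_of_pos ?_ h1
      rwa [mul_comm]
  ext p
  unfold pcone
  simp only [Set.mem_ofPred_eq, key]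

/-- Two distinct faces have at most four common bounding lines. -/
theorem card_common_le [DecidableEq (Set P2)] (hA : IsSimpleArrangement A) {F F' : Set P2} (hF : IsFace A F)
    (hF' : IsFace A F') (hne : F ≠ F') : (sides A F ∩ sides A F').card ≤ 4 := by
  classical
  have hAne : A.Nonempty := by
    rw [← Finset.card_pos]; have := hA.three_le; omega
  obtain ⟨x, hx, rfl⟩ := (isFace_iff hA.isLine hAne).1 hF
  obtain ⟨x', hx', rfl⟩ := (isFace_iff hA.isLine hAne).1 hF'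
  -- a separating line for x, x'
  obtain ⟨m, hm, hms⟩ : ∃ m ∈ A, (cov m ⬝ᵥ x) * (cov m ⬝ᵥ x') < 0 := by
    by_contra hcon
    push Not at hcon
    refine hne (pcone_eq_of_same ?_)
    rintro b ⟨l, hl, rfl⟩
    exact lt_of_le_of_ne (hcon l hl) (mul_ne_zero (hx l hl) (hx' l hl)).symm
  obtain ⟨m', hm', hms'⟩ : ∃ m ∈ A, 0 < (cov m ⬝ᵥ x) * (cov m ⬝ᵥ x') := by
    by_contra hcon
    push Not at hcon
    refine hne ?_
    rw [← pcone_neg (covs A) x']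
    refine pcone_eq_of_same ?_
    rintro b ⟨l, hl, rfl⟩
    rw [dotProduct_neg, mul_neg]
    have := lt_of_le_of_ne (hcon l hl) (mul_ne_zero (hx l hl) (hx' l hl))
    linarith
  set S := sides A (pcone (covs A) x) ∩ sides A (pcone (covs A) x') with hS
  have hmemS : ∀ l ∈ S, l ∈ A ∧ Bounds A x l ∧ Bounds A x' l := by
    intro l hl
    rw [hS, Finset.mem_inter, mem_sides_iff hA hx, mem_sides_iff hA hx'] at hl
    exact ⟨hl.1.1, hl.1.2, hl.2.2⟩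
  have hP : (S.filter fun l => 0 < (cov l ⬝ᵥ x) * (cov l ⬝ᵥ x')).card ≤ 2 := by
    by_contra hcon
    push Not at hcon
    obtain ⟨a, b, c, ha, hb, hc, hab, hac, hbc⟩ := Finset.two_lt_card_iff.1 hcon
    rw [Finset.mem_filter] at ha hb hc
    obtain ⟨ha1, ha2, ha3⟩ := hmemS a ha.1
    obtain ⟨hb1, hb2, hb3⟩ := hmemS b hb.1
    obtain ⟨hc1, hc2, hc3⟩ := hmemS c hc.1
    exact three_sides hA ha1 hb1 hc1 hm hab hac hbc ha.2 hb.2 hc.2 hms ha2 hb2 hc2 ha3 hb3 hc3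
  have hN : (S.filter fun l => ¬ 0 < (cov l ⬝ᵥ x) * (cov l ⬝ᵥ x')).card ≤ 2 := by
    by_contra hcon
    push Not at hcon
    obtain ⟨a, b, c, ha, hb, hc, hab, hac, hbc⟩ := Finset.two_lt_card_iff.1 hcon
    rw [Finset.mem_filter] at ha hb hc
    obtain ⟨ha1, ha2, ha3⟩ := hmemS a ha.1
    obtain ⟨hb1, hb2, hb3⟩ := hmemS b hb.1
    obtain ⟨hc1, hc2, hc3⟩ := hmemS c hc.1
    have ha4 : ¬ 0 < (cov a ⬝ᵥ x) * (cov a ⬝ᵥ x') := by simpa using ha.2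
    have hb4 : ¬ 0 < (cov b ⬝ᵥ x) * (cov b ⬝ᵥ x') := by simpa using hb.2
    have hc4 : ¬ 0 < (cov c ⬝ᵥ x) * (cov c ⬝ᵥ x') := by simpa using hc.2
    have key : ∀ l ∈ A, ¬ 0 < (cov l ⬝ᵥ x) * (cov l ⬝ᵥ x') →
        0 < (cov l ⬝ᵥ x) * (cov l ⬝ᵥ (-x')) := by
      intro l hl h
      have h2 := lt_of_le_of_ne (not_lt.1 h) (mul_ne_zero (hx l hl) (hx' l hl))
      rw [dotProduct_neg, mul_neg]
      linarith
    refine three_sides (x := x) (x' := -x') hA ha1 hb1 hc1 hm' hab hac hbc (key _ ha1 ha4)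
      (key _ hb1 hb4) (key _ hc1 hc4) ?_ ha2 hb2 hc2 (bounds_neg ha3) (bounds_neg hb3)
      (bounds_neg hc3)
    rw [dotProduct_neg, mul_neg]
    linarith
  have := Finset.card_filter_add_card_filter_not (s := S) (fun l => 0 < (cov l ⬝ᵥ x) * (cov l ⬝ᵥ x'))
  omega

/-- Bonferroni. -/
theorem sum_card_le {α : Type*} [DecidableEq α] {k : ℕ} (S : Fin k → Finset α)
    (h : ∀ i j, i ≠ j → (S i ∩ S j).card ≤ 4) (T : Finset (Fin k)) :
    ∑ i ∈ T, (S i).card ≤ (T.biUnion S).card + 4 * T.card.choose 2 := by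
  classical
  induction T using Finset.induction_on with
  | empty => simp
  | insert a T ha ih =>
    rw [Finset.sum_insert ha, Finset.biUnion_insert, Finset.card_insert_of_notMem ha]
    have h1 := Finset.card_union_add_card_inter (S a) (T.biUnion S)
    have h2 : (S a ∩ T.biUnion S).card ≤ 4 * T.card := by
      rw [Finset.inter_biUnion]
      refine Finset.card_biUnion_le.trans ?_
      calc ∑ i ∈ T, (S a ∩ S i).card ≤ ∑ i ∈ T, 4 := by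
            refine Finset.sum_le_sum fun i hi => h a i ?_
            rintro rfl
            exact ha hi
        _ = 4 * T.card := by simp [mul_comm]
    have h3 : (T.card + 1).choose 2 = T.card + T.card.choose 2 := by
      rw [Nat.choose_succ_succ' T.card 1, Nat.choose_one_right]
    rw [h3]
    omega

theorem upper (hA : IsSimpleArrangement A) {k : ℕ} {F : Fin k → Set P2}
    (hFi : Function.Injective F) (hF : ∀ i, IsFace A (F i)) :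
    ∑ i, (sides A (F i)).card ≤ A.card + 4 * k.choose 2 := by
  classical
  have h1 := sum_card_le (fun i => sides A (F i))
    (fun i j hij => card_common_le hA (hF i) (hF j) (fun h => hij (hFi h))) Finset.univ
  rw [Finset.card_univ, Fintype.card_fin] at h1
  have h2 : (Finset.univ.biUnion fun i => sides A (F i)).card ≤ A.card := by
    refine Finset.card_le_card ?_
    intro l hl
    rw [Finset.mem_biUnion] at hl
    obtain ⟨i, -, hi⟩ := hl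
    exact (Finset.mem_filter.1 hi).1
  omega

end Pool.Agent.Q227.SF
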